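import Mathlib
import Pool.Agent.TH104.HY.C
import Pool.Agent.H238R2.HY.Part
import Pool.Agent.Helper311.Glue.Asym

set_option autoImplicit false

/-!
# (p,1)-total labellings for classes of graphs with chromatic number `(c + o(1)) Δ / log Δ`:
the numerical part
-/

namespace Pool.Agent.Q149.HY

open Finset Pool.Agent.H238R2.HY Pool.Agent.TH104.HY

/-- `D = exp L` -/
lemma num {e L D M m x : ℝ} (he0 : 0 < e) (he1 : e ≤ 1) (hM : M = 8 / e)
    (hB1 : 10 ^ 4 / e ^ 2 ≤ L) (hB2 : 10 ^ 4 / e ^ 2 * L ^ 6 ≤ D) (hm1 : M * L ≤ m)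
    (hm2 : m ≤ M * L + 1) (hx : x = 1 / L ^ 2) :
    10 ^ 4 ≤ L ∧ 0 < m ∧ m ≤ L ^ 2 / 100 ∧ 96 * L ^ 2 * m ^ 2 ≤ D ∧ 16 ≤ e * L ∧
      8 * L ≤ e * m ∧ x * D = D / L ^ 2 ∧ 0 < x ∧ x ≤ 1 ∧ 100 * L ≤ e * (D / (2 * m)) ∧
      24 * m * L * L ^ 4 ≤ D := by
  have hε2 : e ^ 2 ≤ 1 := by nlinarith
  have hB : (10 : ℝ) ^ 4 ≤ 10 ^ 4 / e ^ 2 := by
    rw [le_div_iff₀ (by positivity)]; nlinarith
  have hL4 : (10 : ℝ) ^ 4 ≤ L := hB.trans hB1
  have hL0 : 0 < L := by linarith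
  have hM0 : 0 < M := by rw [hM]; positivity
  have hM8 : 8 ≤ M := by rw [hM, le_div_iff₀ he0]; linarith
  have hm0 : 0 < m := by
    have : 0 < M * L := by positivity
    linarith
  have hML : M * L + 1 ≤ 2 * (M * L) := by nlinarith
  have hm3 : m ≤ 2 * (M * L) := by linarith
  have hεM : e * M = 8 := by rw [hM]; field_simp
  have hMB : 1000 * M ≤ 10 ^ 4 / e ^ 2 := by
    rw [hM, le_div_iff₀ (by positivity)]
    have : 1000 * (8 / e) * e ^ 2 = 8000 * e := by field_simp; norm_num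
    rw [this]; linarith
  have hML2 : 1000 * M ≤ L := hMB.trans hB1
  have hm4 : m ≤ L ^ 2 / 100 := by nlinarith
  have hB0 : 0 < 10 ^ 4 / e ^ 2 := by positivity
  have hM2B : M ^ 2 * 156 ≤ 10 ^ 4 / e ^ 2 := by
    rw [hM, le_div_iff₀ (by positivity)]
    have : (8 / e) ^ 2 * 156 * e ^ 2 = 9984 := by field_simp; norm_num
    rw [this]; norm_num
  have hεL : 16 ≤ e * L := by
    have h1 : e * (10 ^ 4 / e ^ 2) ≤ e * L := mul_le_mul_of_nonneg_left hB1 he0.le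
    have h2 : e * (10 ^ 4 / e ^ 2) = 10 ^ 4 / e := by field_simp
    rw [h2] at h1
    have h3 : (10 : ℝ) ^ 4 ≤ 10 ^ 4 / e := by rw [le_div_iff₀ he0]; linarith
    linarith
  have hL6 : M ^ 2 * 156 * L ^ 6 ≤ D :=
    (mul_le_mul_of_nonneg_right hM2B (by positivity)).trans hB2
  have hL2 : 1 ≤ L ^ 2 := one_le_pow₀ (by linarith)
  have hm2L : m ^ 2 ≤ 4 * (M ^ 2 * L ^ 2) := by
    have := pow_le_pow_left₀ hm0.le hm3 2
    linarith [this, show (2 * (M * L)) ^ 2 = 4 * (M ^ 2 * L ^ 2) by ring]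
  have h96 : 96 * L ^ 2 * m ^ 2 ≤ D := by
    refine le_trans ?_ hL6
    have h1 : 96 * L ^ 2 * m ^ 2 ≤ 96 * L ^ 2 * (4 * (M ^ 2 * L ^ 2)) :=
      mul_le_mul_of_nonneg_left hm2L (by positivity)
    refine h1.trans ?_
    have h2 : 96 * L ^ 2 * (4 * (M ^ 2 * L ^ 2)) = M ^ 2 * L ^ 4 * 384 := by ring
    have h3 : M ^ 2 * 156 * L ^ 6 = M ^ 2 * L ^ 4 * (156 * L ^ 2) := by ring
    rw [h2, h3]
    apply mul_le_mul_of_nonneg_left _ (by positivity)
    nlinarith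
  have hD0 : 0 < D := lt_of_lt_of_le (by positivity) h96
  refine ⟨hL4, hm0, hm4, h96, hεL, ?_, ?_, by rw [hx]; positivity, ?_, ?_, ?_⟩
  · have h1 : e * (M * L) ≤ e * m := mul_le_mul_of_nonneg_left hm1 he0.le
    have h2 : e * (M * L) = 8 * L := by rw [← mul_assoc, hεM]
    linarith
  · rw [hx]; ring
  · rw [hx, div_le_one (by positivity)]; exact hL2
  · rw [← mul_div_assoc, le_div_iff₀ (by positivity)]
    have h1 : 100 * L * (2 * m) ≤ 100 * L * (2 * (2 * (M * L))) :=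
      mul_le_mul_of_nonneg_left (by linarith) (by positivity)
    refine h1.trans ?_
    have h2 : e * (10 ^ 4 / e ^ 2 * L ^ 6) ≤ e * D := mul_le_mul_of_nonneg_left hB2 he0.le
    refine le_trans ?_ h2
    have h3 : e * (10 ^ 4 / e ^ 2 * L ^ 6) = 10 ^ 4 / e * L ^ 6 := by field_simp
    rw [h3]
    have h4 : 1250 * M = 10 ^ 4 / e := by rw [hM]; ring
    rw [← h4]
    have h5 : 100 * L * (2 * (2 * (M * L))) = M * L ^ 2 * 400 := by ring
    have h6 : 1250 * M * L ^ 6 = M * L ^ 2 * (1250 * L ^ 4) := by ring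
    rw [h5, h6]
    apply mul_le_mul_of_nonneg_left _ (by positivity)
    have : 1 ≤ L ^ 4 := one_le_pow₀ (by linarith)
    linarith
  · refine le_trans ?_ hL6
    have h1 : 24 * m * L * L ^ 4 ≤ 24 * (2 * (M * L)) * L * L ^ 4 := by gcongr
    refine h1.trans ?_
    have h2 : 24 * (2 * (M * L)) * L * L ^ 4 = M * L ^ 6 * 48 := by ring
    have h3 : M ^ 2 * 156 * L ^ 6 = M * L ^ 6 * (156 * M) := by ring
    rw [h2, h3]
    apply mul_le_mul_of_nonneg_left _ (by positivity)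
    linarith

lemma num_exp {L D m x : ℝ} (hL : L = Real.log D) (hD0 : 0 < D) (hD1 : 1 ≤ D) (hm0 : 0 < m)
    (hL0 : 0 < L) (hx : x = 1 / L ^ 2) (h24 : 24 * m * L * L ^ 4 ≤ D) (h8 : 8 * m ≤ D) :
    4 * (2 * m * Real.exp (-(x ^ 2 * D / (3 * (2 * m))))) * (D * D) ≤ 1 := by
  have e1 : Real.exp (-(4 * L)) = (D ^ 4)⁻¹ := by
    rw [Real.exp_neg, hL]
    congr 1
    rw [show (4 : ℝ) * Real.log D = ((4 : ℕ) : ℝ) * Real.log D by norm_num, ← Real.log_pow,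
      Real.exp_log (by positivity)]
  have h1 : Real.exp (-(x ^ 2 * D / (3 * (2 * m)))) ≤ (D ^ 4)⁻¹ := by
    rw [← e1]
    apply Real.exp_le_exp.2
    have h2 : 4 * L ≤ x ^ 2 * D / (3 * (2 * m)) := by
      rw [le_div_iff₀ (by positivity), hx]
      have h3 : (1 / L ^ 2) ^ 2 * D = D / L ^ 4 := by field_simp
      rw [h3, le_div_iff₀ (by positivity)]
      linarith
    linarith
  have h3 : 4 * (2 * m * Real.exp (-(x ^ 2 * D / (3 * (2 * m))))) * (D * D) ≤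
      4 * (2 * m * (D ^ 4)⁻¹) * (D * D) := by gcongr
  refine h3.trans ?_
  have h4 : 4 * (2 * m * (D ^ 4)⁻¹) * (D * D) = 8 * m / D ^ 2 := by
    field_simp; norm_num
  rw [h4, div_le_one (by positivity)]
  nlinarith

lemma num_H2 {a L D m x Y w k : ℝ} (hL : 10 ^ 4 ≤ L) (ha : a ≤ L / 16) (hm0 : 1 ≤ m)
    (hm2 : m ≤ L ^ 2 / 100) (h96 : 96 * L ^ 2 * m ^ 2 ≤ D) (hxD : x * D = D / L ^ 2)
    (hY : 2 * m * Y = D) (hY0 : 0 < Y) (hw : w ≤ (1 + x) * Y) (hw2 : Y ≤ w + 1)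
    (hx0 : 0 < x) (hk : k ≤ a * (Y / L)) :
    2 * (0 + 1) * k + (2 * m - 1 - 2 * 0) * (w + 1) ≤ D + 2 := by
  have hL0 : 0 < L := by linarith
  have h1 : 2 * m * (w + 1) ≤ D + x * D + 2 * m := by
    have h2 : 2 * m * (w + 1) ≤ 2 * m * ((1 + x) * Y + 1) :=
      mul_le_mul_of_nonneg_left (by linarith) (by linarith)
    have h3 : 2 * m * ((1 + x) * Y + 1) = 2 * m * Y + x * (2 * m * Y) + 2 * m := by ring
    rw [h3, hY] at h2
    exact h2
  have h4 : x * D ≤ Y / 50 := by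
    rw [hxD, div_le_iff₀ (by positivity), ← hY]
    nlinarith
  have h5 : 2 * m ≤ Y / 24 := by
    have h6 : 2 * m * (2 * m) ≤ 2 * m * (Y / 24) := by
      have h7 : 2 * m * (Y / 24) = D / 24 := by rw [← hY]; ring
      rw [h7]
      have h8 : m ^ 2 * 96 ≤ m ^ 2 * (96 * L ^ 2) := by
        apply mul_le_mul_of_nonneg_left _ (by positivity)
        nlinarith
      nlinarith
    exact le_of_mul_le_mul_left h6 (by linarith)
  have h9 : a * (Y / L) ≤ Y / 16 := by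
    have h10 : a * (Y / L) ≤ L / 16 * (Y / L) := mul_le_mul_of_nonneg_right ha (by positivity)
    have h11 : L / 16 * (Y / L) = Y / 16 := by field_simp
    linarith
  linarith

lemma num_H3 {a e L D m x Y w k p : ℝ} (he0 : 0 < e) (he1 : e ≤ 1) (hL : 10 ^ 4 ≤ L)
    (hm0 : 1 ≤ m) (h96 : 96 * L ^ 2 * m ^ 2 ≤ D) (hεL : 16 ≤ e * L)
    (hεm : 8 * L ≤ e * m) (hxD : x * D = D / L ^ 2) (hx1 : x ≤ 1)
    (hY : 2 * m * Y = D) (hY0 : 0 < Y) (hw : w ≤ (1 + x) * Y)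
    (hk : k ≤ a * (Y / L)) (hp : (a / 2 + e / 2) * (D / L) ≤ p) :
    m * k + (2 * m + 1) * (w + 1) ≤ D + p + 2 := by
  have hL0 : 0 < L := by linarith
  obtain ⟨Q, hQ⟩ : ∃ Q : ℝ, Q = D / L := ⟨_, rfl⟩
  have hQL : Q * L = D := by rw [hQ]; field_simp
  have hD0 : 0 < D := by rw [← hY]; positivity
  have hQ0 : 0 < Q := by rw [hQ]; positivity
  rw [← hQ] at hp
  have h1 : m * k ≤ a / 2 * Q := by
    have h2 : m * k ≤ m * (a * (Y / L)) := mul_le_mul_of_nonneg_left hk (by linarith)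
    have h3 : m * (a * (Y / L)) = a / 2 * ((2 * m * Y) / L) := by
      field_simp
    rw [h3, hY, ← hQ] at h2
    exact h2
  have h4 : (2 * m + 1) * (w + 1) ≤ (2 * m + 1) * ((1 + x) * Y + 1) :=
    mul_le_mul_of_nonneg_left (by linarith) (by linarith)
  have h5 : (2 * m + 1) * ((1 + x) * Y + 1) =
      2 * m * Y + x * (2 * m * Y) + 2 * m + (1 + x) * Y + 1 := by ring
  rw [h5, hY, hxD] at h4
  have h6 : D / L ^ 2 ≤ e / 16 * Q := by
    rw [div_le_iff₀ (by positivity)]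
    have : e / 16 * Q * L ^ 2 = (Q * L) * (e * L / 16) := by ring
    rw [this, hQL]
    nlinarith
  have h7 : 2 * Y ≤ e / 8 * Q := by
    have h8 : m * (2 * Y) ≤ m * (e / 8 * Q) := by
      have e1 : m * (2 * Y) = Q * L := by rw [hQL, ← hY]; ring
      have e2 : m * (e / 8 * Q) = Q * (e * m / 8) := by ring
      rw [e1, e2]
      exact mul_le_mul_of_nonneg_left (by linarith) hQ0.le
    exact le_of_mul_le_mul_left h8 (by linarith)
  have h9 : (1 + x) * Y ≤ 2 * Y := mul_le_mul_of_nonneg_right (by linarith) hY0.le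
  have h10 : 3 * m ≤ Y / 8 := by
    have h11 : 2 * m * (3 * m) ≤ 2 * m * (Y / 8) := by
      have e1 : 2 * m * (Y / 8) = D / 8 := by rw [← hY]; ring
      rw [e1]
      have h12 : m ^ 2 * 96 ≤ m ^ 2 * (96 * L ^ 2) := by
        apply mul_le_mul_of_nonneg_left _ (by positivity)
        nlinarith
      nlinarith
    exact le_of_mul_le_mul_left h11 (by linarith)
  linarith

end Pool.Agent.Q149.HY
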