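import Mathlib
import Pool.Agent.Q149.HY.A

set_option autoImplicit false

/-!
# (p,1)-total labellings for classes of graphs with chromatic number `(c + o(1)) Δ / log Δ`
-/

namespace Pool.Agent.Q149.HY

open Finset Filter Pool.Agent.H238R2.HY Pool.Agent.TH104.HY Pool.Agent.Helper311.Glue Classical

/-- sets of vertices with degrees at most `y` in graphs with the property `Q` have colourings with
`(c + o(1)) y / log y` colours -/
def LogCol (Q : ∀ V : Type, SimpleGraph V → Prop) (c : ℝ) : Prop :=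
  ∀ ε : ℝ, 0 < ε → ∃ y₀ : ℝ, ∀ y : ℝ, y₀ ≤ y →
    ∀ (V : Type) [Fintype V] (G : SimpleGraph V) [DecidableRel G.Adj] (P : Set V), Q V G →
      (∀ v ∈ P, (((G.neighborFinset v).filter (fun u => u ∈ P)).card : ℝ) ≤ y) →
        ∃ n : ℕ, (n : ℝ) ≤ (c + ε) * (y / Real.log y) ∧ ColOn G P n

/-- from the maximum degree to all degree bounds -/
theorem logCol_of (Q : ∀ V : Type, SimpleGraph V → Prop) (c : ℝ) (hc : 0 ≤ c)
    (hind : ∀ (V : Type) (G : SimpleGraph V) (P : Set V), Q V G → Q P (G.induce P))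
    (h : ∀ ε : ℝ, 0 < ε → ∃ Δ₀ : ℕ, ∀ Δ : ℕ, Δ₀ ≤ Δ → ∀ (V : Type) [Fintype V]
      (G : SimpleGraph V) [DecidableRel G.Adj], Q V G → G.maxDegree = Δ →
        ∃ n : ℕ, G.Colorable n ∧ (n : ℝ) ≤ (c + ε) * ((Δ : ℝ) / Real.log (Δ : ℝ))) :
    LogCol Q c := by
  intro ε hε
  obtain ⟨Δ₀, hΔ⟩ := h ε hε
  set M : ℕ := max Δ₀ 3 with hM
  set R : ℝ := 2 * ((2 * M + 1 : ℕ) : ℝ) / ε with hR
  refine ⟨max 3 (R ^ 2), ?_⟩
  intro y hy V _ G _ P hP hdeg
  have hy3 : 3 ≤ y := le_trans (le_max_left _ _) hy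
  have hyR : R ^ 2 ≤ y := le_trans (le_max_right _ _) hy
  have hR0 : 0 ≤ R := by rw [hR]; positivity
  set G' := G.induce P with hG'
  -- degrees in the induced graph
  have hdeg' : ∀ v : P, (G'.degree v : ℝ) ≤ y := by
    intro v
    refine le_trans ?_ (hdeg v.1 v.2)
    rw [← SimpleGraph.card_neighborFinset_eq_degree]
    have : ((G'.neighborFinset v).map (Function.Embedding.subtype _)) ⊆
        (G.neighborFinset v.1).filter (fun u => u ∈ P) := by
      intro u hu
      obtain ⟨w, hw, rfl⟩ := Finset.mem_map.1 hu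
      rw [Finset.mem_filter, SimpleGraph.mem_neighborFinset]
      rw [SimpleGraph.mem_neighborFinset] at hw
      exact ⟨by simpa [hG'] using hw, w.2⟩
    have h2 := Finset.card_le_card this
    rw [Finset.card_map] at h2
    exact_mod_cast h2
  by_cases hd : M ≤ G'.maxDegree
  · obtain ⟨n, hn, hn2⟩ := hΔ G'.maxDegree ((le_max_left _ _).trans hd) P G' (hind V G P hP) rfl
    refine ⟨n, hn2.trans ?_, ?_⟩
    · refine mul_le_mul_of_nonneg_left ?_ (by linarith)
      have h3 : (3 : ℝ) ≤ G'.maxDegree := by exact_mod_cast (le_max_right _ _).trans hd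
      refine mono_div_log h3 ?_
      have hne : Nonempty P := by
        by_contra hemp
        rw [not_nonempty_iff] at hemp
        have : G'.maxDegree = 0 := by
          apply Nat.le_zero.1
          apply SimpleGraph.maxDegree_le_of_forall_degree_le
          intro v
          exact hemp.elim v
        rw [this] at h3
        norm_num at h3
      obtain ⟨v, hv⟩ := G'.exists_maximal_degree_vertex
      rw [hv]
      exact hdeg' v
    · obtain ⟨C⟩ := hn
      refine ⟨fun v => if hv : v ∈ P then (C ⟨v, hv⟩ : ℕ) else 0, ?_, ?_⟩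
      · intro v hv
        simp only [hv, dif_pos]
        exact (C ⟨v, hv⟩).2
      · intro u hu v hv huv
        simp only [hu, hv, dif_pos]
        intro h
        have h4 : G'.Adj ⟨u, hu⟩ ⟨v, hv⟩ := by simpa [hG'] using huv
        exact C.valid h4 (Fin.ext h)
  · push Not at hd
    obtain ⟨γ, hγ1, hγ2⟩ := degen (fun v : P => G'.neighborFinset v) M (fun v => by
        rw [SimpleGraph.card_neighborFinset_eq_degree]
        exact (G'.degree_le_maxDegree v).trans hd.le) (fun v => by simp) _ univ rfl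
    refine ⟨2 * M + 1, ?_, ?_⟩
    · have h5 : R ≤ Real.sqrt y := Real.le_sqrt_of_sq_le hyR
      have h6 := big_div_log (y := y) (by linarith)
      have h7 : ((2 * M + 1 : ℕ) : ℝ) = ε * (R / 2) := by rw [hR]; field_simp
      rw [h7]
      have h8 : R / 2 ≤ y / Real.log y := by linarith
      calc ε * (R / 2) ≤ ε * (y / Real.log y) := mul_le_mul_of_nonneg_left h8 hε.le
        _ ≤ (c + ε) * (y / Real.log y) := by
            refine mul_le_mul_of_nonneg_right (by linarith) ?_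
            linarith
    · refine ⟨fun v => if hv : v ∈ P then γ ⟨v, hv⟩ else 0, ?_, ?_⟩
      · intro v hv
        simp only [hv, dif_pos]
        exact hγ1 _
      · intro u hu v hv huv
        simp only [hu, hv, dif_pos]
        have h4 : G'.Adj ⟨u, hu⟩ ⟨v, hv⟩ := by simpa [hG'] using huv
        exact hγ2 _ (Finset.mem_univ _) _ (Finset.mem_univ _) (by
          rw [SimpleGraph.mem_neighborFinset]; exact h4)

/-- the coefficient -/
lemma coef {c e η x L Y y ly : ℝ} (hc : 0 ≤ c) (he0 : 0 < e) (he1 : e ≤ 1)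
    (hη : η = e / (16 * (c + 1))) (hL : 0 < L) (hY : 0 < Y) (hx0 : 0 ≤ x) (hx : x ≤ η)
    (hy : y = (1 + x) * Y) (hly : (1 - η) * L ≤ ly) :
    (c + e / 4) * (y / ly) ≤ (c + e / 2) * (Y / L) := by
  have hη0 : 0 < η := by rw [hη]; positivity
  have hη1 : η ≤ 1 / 16 := by
    rw [hη, div_le_div_iff₀ (by positivity) (by norm_num)]
    nlinarith
  have hηc : η * (16 * (c + 1)) = e := by rw [hη]; field_simp
  have h0 : 0 < (1 - η) * L := mul_pos (by linarith) hL
  have h1 : y / ly ≤ (1 + η) * Y / ((1 - η) * L) := by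
    rw [hy]
    apply div_le_div₀ (by positivity) _ h0 hly
    exact mul_le_mul_of_nonneg_right (by linarith) hY.le
  have h2 : (1 + η) * Y / ((1 - η) * L) = (1 + η) / (1 - η) * (Y / L) := by
    have : 1 - η ≠ 0 := by linarith
    field_simp
  have h3 : (1 + η) / (1 - η) ≤ 1 + 3 * η := by
    rw [div_le_iff₀ (by linarith)]
    nlinarith
  have hYL : 0 < Y / L := by positivity
  calc (c + e / 4) * (y / ly) ≤ (c + e / 4) * ((1 + 3 * η) * (Y / L)) := by
        apply mul_le_mul_of_nonneg_left _ (by positivity)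
        rw [h2] at h1
        exact h1.trans (mul_le_mul_of_nonneg_right h3 hYL.le)
    _ = ((c + e / 4) * (1 + 3 * η)) * (Y / L) := by ring
    _ ≤ (c + e / 2) * (Y / L) := by
        apply mul_le_mul_of_nonneg_right _ hYL.le
        nlinarith

set_option maxHeartbeats 1000000 in
theorem main (Q : ∀ V : Type, SimpleGraph V → Prop) (c : ℝ) (hc : 0 ≤ c) (hQ : LogCol Q c)
    (ε : ℝ) (hε : 0 < ε) : ∃ D₀ : ℕ, ∀ (V : Type) [Fintype V]
    (G : SimpleGraph V) [DecidableRel G.Adj] (D p : ℕ), D₀ ≤ D → (∀ v, G.degree v ≤ D) →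
    Q V G → (c / 2 + ε) * (D / Real.log D) ≤ p → TotLab G p (D + 2 * p - 1) := by
  obtain ⟨e, he⟩ : ∃ e : ℝ, e = min ε 1 := ⟨_, rfl⟩
  have he0 : 0 < e := by rw [he]; exact lt_min hε (by norm_num)
  have heε : e ≤ ε := by rw [he]; exact min_le_left _ _
  have he1 : e ≤ 1 := by rw [he]; exact min_le_right _ _
  obtain ⟨y₀, hy₀⟩ := hQ (e / 4) (by positivity)
  obtain ⟨η, hη⟩ : ∃ η : ℝ, η = e / (16 * (c + 1)) := ⟨_, rfl⟩
  have hη0 : 0 < η := by rw [hη]; positivity
  have hη1 : η ≤ 1 / 16 := by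
    rw [hη, div_le_div_iff₀ (by positivity) (by norm_num)]
    nlinarith
  have hB0 : (0 : ℝ) < 10 ^ 4 / e ^ 2 := by positivity
  have h1 := (isLittleO_pow_exp_pos_mul_atTop 6 (show 0 < η / 2 by positivity)).bound
    (show (0 : ℝ) < (10 ^ 4 / e ^ 2)⁻¹ by positivity)
  have h2 : Filter.Tendsto (fun n : ℕ => Real.log (n : ℝ)) Filter.atTop Filter.atTop :=
    Real.tendsto_log_atTop.comp tendsto_natCast_atTop_atTop
  have h3 := h2.eventually (h1.and ((Filter.eventually_ge_atTop (10 ^ 4 / e ^ 2 : ℝ)).and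
    ((Filter.eventually_ge_atTop (16 * (c + 1))).and ((Filter.eventually_ge_atTop y₀).and
      (Filter.eventually_ge_atTop (1 / η))))))
  obtain ⟨N, hN⟩ := Filter.eventually_atTop.1 h3
  refine ⟨max N 1, ?_⟩
  intro V _ G _ D p hD hdeg hG hp
  obtain ⟨h4, hB1, hLc, hLy, hLη⟩ := hN D (le_trans (le_max_left _ _) hD)
  have hD1 : 1 ≤ D := le_trans (le_max_right _ _) hD
  have hD1r : (1 : ℝ) ≤ D := by exact_mod_cast hD1
  have hD0 : (0 : ℝ) < D := by linarith
  obtain ⟨L, hL⟩ : ∃ L : ℝ, L = Real.log (D : ℝ) := ⟨_, rfl⟩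
  rw [← hL] at h4 hB1 hp hLc hLy hLη
  have hL0 : 0 < L := lt_of_lt_of_le hB0 hB1
  have hexpL : Real.exp L = D := by rw [hL]; exact Real.exp_log hD0
  have hB2' : 10 ^ 4 / e ^ 2 * L ^ 6 ≤ Real.exp (η / 2 * L) := by
    have h5 : L ^ 6 ≤ (10 ^ 4 / e ^ 2)⁻¹ * Real.exp (η / 2 * L) := by
      simpa [abs_of_nonneg (Real.exp_pos (η / 2 * L)).le, abs_of_nonneg hL0.le] using h4
    have h6 := mul_le_mul_of_nonneg_left h5 hB0.le
    rwa [← mul_assoc, mul_inv_cancel₀ hB0.ne', one_mul] at h6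
  have hB2 : 10 ^ 4 / e ^ 2 * L ^ 6 ≤ D := by
    refine hB2'.trans ?_
    rw [← hexpL]
    apply Real.exp_le_exp.2
    have : η / 2 * L ≤ 1 * L := mul_le_mul_of_nonneg_right (by linarith) hL0.le
    linarith
  obtain ⟨M, hM⟩ : ∃ M : ℝ, M = 8 / e := ⟨_, rfl⟩
  have hM0 : 0 < M := by rw [hM]; positivity
  obtain ⟨m, hm⟩ : ∃ m : ℕ, m = ⌈M * L⌉₊ := ⟨_, rfl⟩
  have hm1 : M * L ≤ m := by rw [hm]; exact Nat.le_ceil _
  have hm2 : (m : ℝ) ≤ M * L + 1 := by rw [hm]; exact (Nat.ceil_lt_add_one (by positivity)).le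
  obtain ⟨x, hx⟩ : ∃ x : ℝ, x = 1 / L ^ 2 := ⟨_, rfl⟩
  obtain ⟨hL4, hm0, hm3, h96, heL, hem, hxD, hx0, hx1, hYe, h24⟩ :=
    num he0 he1 hM hB1 hB2 hm1 hm2 hx
  obtain ⟨Y, hY'⟩ : ∃ Y : ℝ, Y = D / (2 * m) := ⟨_, rfl⟩
  rw [← hY'] at hYe
  have hY : 2 * m * Y = D := by rw [hY']; field_simp
  have hY0 : 0 < Y := by rw [hY']; positivity
  have hm1' : (1 : ℝ) ≤ m := by
    have : 0 < m := by exact_mod_cast hm0
    exact_mod_cast this
  have hmN : 1 ≤ m := by exact_mod_cast hm1'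
  have hL2 : 1 ≤ L ^ 2 := one_le_pow₀ (by linarith)
  have h8 : 8 * (m : ℝ) ≤ D := by
    refine le_trans ?_ h96
    have h9 : (m : ℝ) * 8 ≤ m * (96 * L ^ 2 * m) := by
      apply mul_le_mul_of_nonneg_left _ hm0.le
      have h10 : 1 * 1 ≤ L ^ 2 * (m : ℝ) := mul_le_mul hL2 hm1' (by norm_num) (by positivity)
      linarith
    linarith [h9, show (m : ℝ) * (96 * L ^ 2 * m) = 96 * L ^ 2 * (m : ℝ) ^ 2 by ring]
  have hcast : ((2 * m : ℕ) : ℝ) = 2 * (m : ℝ) := by push_cast; ring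
  have hexp := num_exp hL hD0 hD1r hm0 hL0 hx h24 h8
  obtain ⟨t, ht1, ht2⟩ := partition G (2 * m) D (by omega) hD1 hdeg x hx0.le hx1 (by
    rw [hcast]
    push_cast
    exact hexp)
  rw [hcast] at ht2
  obtain ⟨w, hw⟩ : ∃ w : ℕ, w = ⌊(1 + x) * D / (2 * (m : ℝ))⌋₊ := ⟨_, rfl⟩
  rw [← hw] at ht2
  have hYw : (1 + x) * D / (2 * (m : ℝ)) = (1 + x) * Y := by rw [hY']; ring
  rw [hYw] at hw
  obtain ⟨y, hy⟩ : ∃ y : ℝ, y = (1 + x) * Y := ⟨_, rfl⟩
  have hwY : (w : ℝ) ≤ (1 + x) * Y := by rw [hw]; exact Nat.floor_le (by positivity)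
  have hYw2 : Y ≤ w + 1 := by
    have h9 : (1 + x) * Y ≤ w + 1 := by rw [hw]; exact (Nat.lt_floor_add_one _).le
    have h10 : 0 < x * Y := by positivity
    linarith
  -- the size of the types
  have hY1 : 100 * L ≤ Y := by
    have : e * Y ≤ 1 * Y := mul_le_mul_of_nonneg_right he1 hY0.le
    linarith
  have hyY : Y ≤ y := by
    rw [hy]
    have : 0 < x * Y := by positivity
    linarith
  have hyy : y₀ ≤ y := by linarith
  have hly : (1 - η) * L ≤ Real.log y := by
    rw [Real.le_log_iff_exp_le (by linarith)]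
    refine le_trans ?_ hyY
    rw [hY', le_div_iff₀ (by positivity)]
    have h9 : Real.exp ((1 - η) * L) * Real.exp (η * L) = D := by
      rw [← Real.exp_add, ← hexpL]
      congr 1; ring
    rw [← h9]
    have h10 : 2 * (m : ℝ) ≤ Real.exp (η * L) := by
      have h11 : Real.exp (η / 2 * L) ≤ Real.exp (η * L) := by
        apply Real.exp_le_exp.2
        have : 0 < η * L := by positivity
        linarith
      refine le_trans ?_ (hB2'.trans h11)
      have h13 : L ^ 2 ≤ L ^ 6 := pow_le_pow_right₀ (by linarith) (by norm_num)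
      have hB4 : (1 : ℝ) ≤ 10 ^ 4 / e ^ 2 := by
        rw [le_div_iff₀ (by positivity)]
        have : e ^ 2 ≤ 1 := pow_le_one₀ he0.le he1
        linarith
      have h14 : 1 * L ^ 6 ≤ 10 ^ 4 / e ^ 2 * L ^ 6 :=
        mul_le_mul_of_nonneg_right hB4 (by positivity)
      linarith
    exact mul_le_mul_of_nonneg_left h10 (Real.exp_pos ((1 - η) * L)).le
  have hxη : x ≤ η := by
    rw [hx, div_le_iff₀ (by positivity)]
    rw [div_le_iff₀ hη0] at hLη
    have h9 : 1 * 1 ≤ (L * η) * L := mul_le_mul hLη (by linarith) (by norm_num) (by linarith)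
    linarith [h9, show (L * η) * L = η * L ^ 2 by ring]
  have hcoef := coef hc he0 he1 hη hL0 hY0 hx0.le hxη hy hly
  -- the colouring of the types
  obtain ⟨k, hk⟩ : ∃ k : ℕ, k = ⌊(c + e / 4) * (y / Real.log y)⌋₊ := ⟨_, rfl⟩
  have hly0 : 0 < Real.log y := lt_of_lt_of_le (mul_pos (by linarith) hL0) hly
  have hk1 : (k : ℝ) ≤ (c + e / 2) * (Y / L) := by
    refine le_trans ?_ hcoef
    rw [hk]
    exact Nat.floor_le (mul_nonneg (by linarith) (div_nonneg (by linarith) hly0.le))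
  have hcol : ∀ j : ℕ, ∃ f : V → ℕ, (∀ v, t v = j → f v < max k 1) ∧
      ∀ u v, t u = j → t v = j → G.Adj u v → f u ≠ f v := by
    intro j
    obtain ⟨n, hn, f, hf1, hf2⟩ := hy₀ y hyy V G {v | t v = j} hG (by
      intro v _
      have h10 : (w : ℝ) ≤ y := by rw [hy]; exact hwY
      refine le_trans ?_ h10
      refine Nat.cast_le.2 ?_
      refine le_trans (Finset.card_le_card ?_) (ht2 v j)
      intro u hu
      simpa using hu)
    have hnk : n ≤ k := by rw [hk]; exact Nat.le_floor hn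
    refine ⟨f, fun v hv => ?_, fun u v hu hv huv => hf2 u hu v hv huv⟩
    have := hf1 v hv
    omega
  choose f hf1 hf2 using hcol
  have ha : c + e / 2 ≤ L / 16 := by linarith
  have hkY' : (k : ℝ) ≤ Y / 16 := by
    refine hk1.trans ?_
    have h10 : (c + e / 2) * (Y / L) ≤ L / 16 * (Y / L) :=
      mul_le_mul_of_nonneg_right ha (by positivity)
    have h11 : L / 16 * (Y / L) = Y / 16 := by field_simp
    linarith
  have hDL : 0 < (D : ℝ) / L := by positivity
  have hp2 : (c / 2 + e) * (D / L) ≤ p := by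
    refine le_trans ?_ hp
    exact mul_le_mul_of_nonneg_right (by linarith) hDL.le
  have hQ7 : 2 * Y ≤ e / 8 * (D / L) := by
    have h9 : m * (2 * Y) ≤ m * (e / 8 * (D / L)) := by
      have e1 : (m : ℝ) * (2 * Y) = (D / L) * L := by
        rw [div_mul_cancel₀ _ hL0.ne', ← hY]; ring
      have e2 : (m : ℝ) * (e / 8 * (D / L)) = (D / L) * (e * m / 8) := by ring
      rw [e1, e2]
      exact mul_le_mul_of_nonneg_left (by linarith) hDL.le
    exact le_of_mul_le_mul_left h9 (by linarith)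
  have hp3 : 16 * Y ≤ p := by
    have h9 : e * (D / L) ≤ (c / 2 + e) * (D / L) :=
      mul_le_mul_of_nonneg_right (by linarith) hDL.le
    linarith
  have hp1 : 1 ≤ p := by
    have : (0 : ℝ) < p := by linarith
    exact_mod_cast this
  -- `k = 0` is replaced by `1`
  obtain ⟨k', hk'⟩ : ∃ k' : ℕ, k' = max k 1 := ⟨_, rfl⟩
  rw [← hk'] at hf1
  have hk'1 : (k' : ℝ) ≤ (c + e / 2) * (Y / L) := by
    have h9 : (1 : ℝ) ≤ (c + e / 2) * (Y / L) := by
      have h10 : 50 ≤ (e / 2) * (Y / L) := by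
        have : (e / 2) * (Y / L) = (e * Y) / (2 * L) := by ring
        rw [this, le_div_iff₀ (by positivity)]
        linarith
      have h11 : (e / 2) * (Y / L) ≤ (c + e / 2) * (Y / L) :=
        mul_le_mul_of_nonneg_right (by linarith) (by positivity)
      linarith
    rw [hk']
    rcases le_total k 1 with h | h
    · rw [max_eq_right h]; exact_mod_cast h9
    · rw [max_eq_left h]; exact hk1
  have hk'Y : (k' : ℝ) ≤ Y := by
    refine hk'1.trans ?_
    have h10 : (c + e / 2) * (Y / L) ≤ L / 16 * (Y / L) :=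
      mul_le_mul_of_nonneg_right ha (by positivity)
    have h11 : L / 16 * (Y / L) = Y / 16 := by field_simp
    linarith
  have hkw : k' ≤ w + 1 := by
    have : (k' : ℝ) ≤ w + 1 := hk'Y.trans hYw2
    exact_mod_cast this
  have hp4 : ((c + e / 2) / 2 + e / 2) * (D / L) ≤ p := by
    refine le_trans ?_ hp2
    exact mul_le_mul_of_nonneg_right (by linarith) hDL.le
  have hH3 := num_H3 he0 he1 hL4 hm1' h96 heL hem hxD hx1 hY hY0 hwY hk'1 hp4
  refine structB G m 0 w k' p D (by omega) hp1 t ht1 ht2 (fun v => f (t v) v)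
    (fun v => hf1 (t v) v rfl) (fun u v huv htt => ?_) hkw ?_ ?_ ?_ ?_
  · rw [← htt]
    exact hf2 (t u) u v rfl htt.symm huv
  · have h9 : ((m : ℝ) - 1 - 0) * k' ≤ ((m : ℝ) - 1 - 2 * 0) * (w + 1) := by
      have : (k' : ℝ) ≤ w + 1 := by exact_mod_cast hkw
      have := mul_le_mul_of_nonneg_left this (by linarith : (0 : ℝ) ≤ (m : ℝ) - 1)
      linarith
    exact_mod_cast h9
  · have h9 := num_H2 hL4 ha hm1' hm3 h96 hxD hY hY0 hwY hYw2 hx0 hk'1
    exact_mod_cast h9
  · exact_mod_cast hH3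
  · have h9 : (2 * (0 : ℝ) + 1) * (w + 1) ≤ p - 1 + (0 + 1) * k' := by
      have h10 : (1 + x) * Y ≤ 2 * Y := mul_le_mul_of_nonneg_right (by linarith) hY0.le
      have h13 : 100 ≤ Y := by linarith
      have h14 : (0 : ℝ) ≤ k' := by positivity
      linarith
    exact_mod_cast h9

end Pool.Agent.Q149.HY
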