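import Mathlib
import Pool.Agent.Q149.HY.A

set_option autoImplicit false

/-!
# (p,1)-total labellings from colourings of the types: a finite form
-/

namespace Pool.Agent.Q149.HY

open Finset Filter Pool.Agent.H238R2.HY Pool.Agent.TH104.HY Pool.Agent.Helper311.Glue Classical

/-- the parameters of the partition into `2 m` types -/
structure Par (e : ℝ) (D m w : ℕ) (L x Y : ℝ) : Prop where
  hL : L = Real.log D
  hL4 : 10 ^ 4 ≤ L
  hm1 : 8 / e * L ≤ m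
  hm2 : (m : ℝ) ≤ 8 / e * L + 1
  hm3 : (m : ℝ) ≤ L ^ 2 / 100
  h96 : 96 * L ^ 2 * (m : ℝ) ^ 2 ≤ D
  hx : x = 1 / L ^ 2
  hx1 : x ≤ 1
  hY : 2 * (m : ℝ) * Y = D
  hY1 : 100 * L ≤ e * Y
  hw : w = ⌊(1 + x) * Y⌋₊

set_option maxHeartbeats 1000000 in
theorem main_gen (e : ℝ) (he0 : 0 < e) (he1 : e ≤ 1) : ∃ D₀ : ℕ, ∀ D : ℕ, D₀ ≤ D →
    ∃ (m w : ℕ) (L x Y : ℝ), Par e D m w L x Y ∧
      ∀ (V : Type) [Fintype V] (G : SimpleGraph V) [DecidableRel G.Adj] (k p : ℕ),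
        (∀ v, G.degree v ≤ D) → 1 ≤ k → (k : ℝ) ≤ Y / 16 →
        (∀ P : Set V, (∀ v ∈ P, ((G.neighborFinset v).filter (fun u => u ∈ P)).card ≤ w) →
          ColOn G P k) →
        (m : ℝ) * k + e * (D / L) ≤ p → TotLab G p (D + 2 * p - 1) := by
  have hB0 : (0 : ℝ) < 10 ^ 4 / e ^ 2 := by positivity
  have h1 := (isLittleO_pow_exp_pos_mul_atTop 6 (show (0 : ℝ) < 1 by norm_num)).bound
    (show (0 : ℝ) < (10 ^ 4 / e ^ 2)⁻¹ by positivity)
  have h2 : Filter.Tendsto (fun n : ℕ => Real.log (n : ℝ)) Filter.atTop Filter.atTop :=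
    Real.tendsto_log_atTop.comp tendsto_natCast_atTop_atTop
  have h3 := h2.eventually (h1.and (Filter.eventually_ge_atTop (10 ^ 4 / e ^ 2 : ℝ)))
  obtain ⟨N, hN⟩ := Filter.eventually_atTop.1 h3
  refine ⟨max N 1, ?_⟩
  intro D hD
  obtain ⟨h4, hB1⟩ := hN D (le_trans (le_max_left _ _) hD)
  have hD1 : 1 ≤ D := le_trans (le_max_right _ _) hD
  have hD1r : (1 : ℝ) ≤ D := by exact_mod_cast hD1
  have hD0 : (0 : ℝ) < D := by linarith
  obtain ⟨L, hL⟩ : ∃ L : ℝ, L = Real.log (D : ℝ) := ⟨_, rfl⟩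
  rw [← hL] at h4 hB1
  have hL0 : 0 < L := lt_of_lt_of_le hB0 hB1
  have hexpL : Real.exp L = D := by rw [hL]; exact Real.exp_log hD0
  have hB2 : 10 ^ 4 / e ^ 2 * L ^ 6 ≤ D := by
    have h5 : L ^ 6 ≤ (10 ^ 4 / e ^ 2)⁻¹ * Real.exp L := by
      simpa [abs_of_nonneg (Real.exp_pos L).le, abs_of_nonneg hL0.le] using h4
    have h6 := mul_le_mul_of_nonneg_left h5 hB0.le
    rw [← mul_assoc, mul_inv_cancel₀ hB0.ne', one_mul, hexpL] at h6
    exact h6
  obtain ⟨M, hM⟩ : ∃ M : ℝ, M = 8 / e := ⟨_, rfl⟩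
  have hM0 : 0 < M := by rw [hM]; positivity
  obtain ⟨m, hm⟩ : ∃ m : ℕ, m = ⌈M * L⌉₊ := ⟨_, rfl⟩
  have hm1 : M * L ≤ m := by rw [hm]; exact Nat.le_ceil _
  have hm2 : (m : ℝ) ≤ M * L + 1 := by rw [hm]; exact (Nat.ceil_lt_add_one (by positivity)).le
  obtain ⟨x, hx⟩ : ∃ x : ℝ, x = 1 / L ^ 2 := ⟨_, rfl⟩
  obtain ⟨hL4, hm0, hm3, h96, heL, hem, hxD, hx0, hx1, hYe, h24⟩ :=
    num he0 he1 hM hB1 hB2 hm1 hm2 hx
  obtain ⟨Y, hY'⟩ : ∃ Y : ℝ, Y = D / (2 * m) := ⟨_, rfl⟩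
  rw [← hY'] at hYe
  have hY : 2 * m * Y = D := by rw [hY']; field_simp
  have hY0 : 0 < Y := by rw [hY']; positivity
  have hm1' : (1 : ℝ) ≤ m := by
    have : 0 < m := by exact_mod_cast hm0
    exact_mod_cast this
  have hmN : 1 ≤ m := by exact_mod_cast hm1'
  have hL2 : 1 ≤ L ^ 2 := one_le_pow₀ (by linarith)
  have h8 : 8 * (m : ℝ) ≤ D := by
    refine le_trans ?_ h96
    have h9 : (m : ℝ) * 8 ≤ m * (96 * L ^ 2 * m) := by
      apply mul_le_mul_of_nonneg_left _ hm0.le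
      have h10 : 1 * 1 ≤ L ^ 2 * (m : ℝ) := mul_le_mul hL2 hm1' (by norm_num) (by positivity)
      linarith
    linarith [h9, show (m : ℝ) * (96 * L ^ 2 * m) = 96 * L ^ 2 * (m : ℝ) ^ 2 by ring]
  have hcast : ((2 * m : ℕ) : ℝ) = 2 * (m : ℝ) := by push_cast; ring
  have hexp := num_exp hL hD0 hD1r hm0 hL0 hx h24 h8
  obtain ⟨w, hw⟩ : ∃ w : ℕ, w = ⌊(1 + x) * Y⌋₊ := ⟨_, rfl⟩
  refine ⟨m, w, L, x, Y, ⟨hL, hL4, by rw [← hM]; exact hm1, by rw [← hM]; exact hm2, hm3, h96,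
    hx, hx1, hY, hYe, hw⟩, ?_⟩
  intro V _ G _ k p hdeg hk1 hkY hcol hp
  obtain ⟨t, ht1, ht2⟩ := partition G (2 * m) D (by omega) hD1 hdeg x hx0.le hx1 (by
    rw [hcast]
    push_cast
    exact hexp)
  rw [hcast] at ht2
  have hYw : (1 + x) * D / (2 * (m : ℝ)) = (1 + x) * Y := by rw [hY']; ring
  rw [hYw, ← hw] at ht2
  have hwY : (w : ℝ) ≤ (1 + x) * Y := by rw [hw]; exact Nat.floor_le (by positivity)
  have hYw2 : Y ≤ w + 1 := by
    have h9 : (1 + x) * Y ≤ w + 1 := by rw [hw]; exact (Nat.lt_floor_add_one _).le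
    have h10 : 0 < x * Y := by positivity
    linarith
  have hY1 : 100 * L ≤ Y := by
    have : e * Y ≤ 1 * Y := mul_le_mul_of_nonneg_right he1 hY0.le
    linarith
  have hcol' : ∀ j : ℕ, ∃ f : V → ℕ, (∀ v, t v = j → f v < k) ∧
      ∀ u v, t u = j → t v = j → G.Adj u v → f u ≠ f v := by
    intro j
    obtain ⟨f, hf1, hf2⟩ := hcol {v | t v = j} (by
      intro v _
      refine le_trans (Finset.card_le_card ?_) (ht2 v j)
      intro u hu
      simpa using hu)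
    exact ⟨f, fun v hv => hf1 v hv, fun u v hu hv huv => hf2 u hu v hv huv⟩
  choose f hf1 hf2 using hcol'
  obtain ⟨a, ha'⟩ : ∃ a : ℝ, a = k * L / Y := ⟨_, rfl⟩
  have hka : (k : ℝ) = a * (Y / L) := by rw [ha']; field_simp
  have ha : a ≤ L / 16 := by
    rw [ha', div_le_iff₀ hY0]
    have := mul_le_mul_of_nonneg_right hkY hL0.le
    linarith
  have hDL : 0 < (D : ℝ) / L := by positivity
  have hmk : (m : ℝ) * k = a / 2 * (D / L) := by
    rw [hka, ← hY]; field_simp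
  have hQ7 : 2 * Y ≤ e / 8 * (D / L) := by
    have h9 : m * (2 * Y) ≤ m * (e / 8 * (D / L)) := by
      have e1 : (m : ℝ) * (2 * Y) = (D / L) * L := by
        rw [div_mul_cancel₀ _ hL0.ne', ← hY]; ring
      have e2 : (m : ℝ) * (e / 8 * (D / L)) = (D / L) * (e * m / 8) := by ring
      rw [e1, e2]
      exact mul_le_mul_of_nonneg_left (by linarith) hDL.le
    exact le_of_mul_le_mul_left h9 (by linarith)
  have hk0 : (0 : ℝ) ≤ k := by positivity
  have hp3 : 16 * Y ≤ p := by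
    have h9 : 0 ≤ (m : ℝ) * k := by positivity
    linarith
  have hp1 : 1 ≤ p := by
    have : (0 : ℝ) < p := by linarith
    exact_mod_cast this
  have hkw : k ≤ w + 1 := by
    have : (k : ℝ) ≤ w + 1 := by linarith
    exact_mod_cast this
  have hp4 : (a / 2 + e / 2) * (D / L) ≤ p := by
    refine le_trans ?_ hp
    rw [hmk]
    have : 0 ≤ e * (D / L) := by positivity
    linarith
  have hH3 := num_H3 he0 he1 hL4 hm1' h96 heL hem hxD hx1 hY hY0 hwY hka.le hp4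
  refine structB G m 0 w k p D (by omega) hp1 t ht1 ht2 (fun v => f (t v) v)
    (fun v => hf1 (t v) v rfl) (fun u v huv htt => ?_) hkw ?_ ?_ ?_ ?_
  · rw [← htt]
    exact hf2 (t u) u v rfl htt.symm huv
  · have h9 : ((m : ℝ) - 1 - 0) * k ≤ ((m : ℝ) - 1 - 2 * 0) * (w + 1) := by
      have : (k : ℝ) ≤ w + 1 := by exact_mod_cast hkw
      have := mul_le_mul_of_nonneg_left this (by linarith : (0 : ℝ) ≤ (m : ℝ) - 1)
      linarith
    exact_mod_cast h9
  · have h9 := num_H2 hL4 ha hm1' hm3 h96 hxD hY hY0 hwY hYw2 hx0 hka.le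
    exact_mod_cast h9
  · exact_mod_cast hH3
  · have h9 : (2 * (0 : ℝ) + 1) * (w + 1) ≤ p - 1 + (0 + 1) * k := by
      have h10 : (1 + x) * Y ≤ 2 * Y := mul_le_mul_of_nonneg_right (by linarith) hY0.le
      have h13 : 100 ≤ Y := by linarith
      linarith
    exact_mod_cast h9

/-- the case `p ≥ D + 1` -/
theorem large_p {V : Type} [Fintype V] (G : SimpleGraph V) [DecidableRel G.Adj] (D p : ℕ)
    (hdeg : ∀ v, G.degree v ≤ D) (hp : D + 1 ≤ p) : TotLab G p (D + 2 * p - 1) := by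
  obtain ⟨s, hs1, hs2⟩ := greedy G D hdeg
  obtain ⟨c, hc1, hc2, hc3⟩ := vizing G D hdeg
  refine ⟨s, Sym2.lift ⟨fun u v => c u v + (D + p), fun u v => by
    change c u v + (D + p) = c v u + (D + p); rw [hc1]⟩, ?_, ?_, hs2, ?_, ?_⟩
  · intro v
    have := hs1 v
    omega
  · intro e he
    induction e using Sym2.ind with
    | _ u v =>
      rw [SimpleGraph.mem_edgeSet] at he
      have := hc2 u v he
      simp only [Sym2.lift_mk]
      omega
  · intro u v w huv huw hvw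
    simp only [Sym2.lift_mk]
    have := hc3 u v w huv huw hvw
    omega
  · intro u v huv
    simp only [Sym2.lift_mk]
    have := hs1 u
    rw [abs_sub_comm, le_abs]
    left
    push_cast
    omega

end Pool.Agent.Q149.HY
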