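import Mathlib
import Pool.Agent.TH855.Occ

set_option autoImplicit false

/-!
# Local occupancy for weighted graphs with small clique number
-/

namespace Pool.Agent.Q149.HY

open Finset Classical Pool.Agent.TH855

set_option linter.unusedSectionVars false

variable {V : Type} [Fintype V] {G : SimpleGraph V}

/-- closed neighbourhoods are removed -/
noncomputable def Rm (G : SimpleGraph V) (N : Finset V) (u : V) : Finset V :=
  N.filter (fun w => w ≠ u ∧ ¬ G.Adj u w)

/-- neighbours in `N` -/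
noncomputable def Nb (G : SimpleGraph V) (N : Finset V) (u : V) : Finset V :=
  N.filter (fun w => G.Adj u w)

theorem mem_Rm {N : Finset V} {u w : V} : w ∈ Rm G N u ↔ w ∈ N ∧ w ≠ u ∧ ¬ G.Adj u w := by
  rw [Rm, Finset.mem_filter]

theorem mem_Nb {N : Finset V} {u w : V} : w ∈ Nb G N u ↔ w ∈ N ∧ G.Adj u w := by
  rw [Nb, Finset.mem_filter]

theorem zf_mono {N N' : Finset V} (h : N ⊆ N') (l : V → ℝ) (hl : ∀ u, 0 ≤ l u) :
    Zf G N l ≤ Zf G N' l := by
  rw [Zf, Zf]
  refine Finset.sum_le_sum_of_subset_of_nonneg ?_ ?_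
  · intro A hA
    rw [mem_ind] at hA ⊢
    exact ⟨hA.1.trans h, hA.2⟩
  · intro A _ _
    exact Finset.prod_nonneg (fun u _ => hl u)

theorem filt_eq (N : Finset V) (u : V) :
    (Ind G N).filter (fun A => u ∉ A ∧ ∀ w ∈ A, ¬ G.Adj u w) = Ind G (Rm G N u) := by
  ext A
  rw [Finset.mem_filter, mem_ind, mem_ind]
  constructor
  · rintro ⟨⟨h1, h2⟩, h3, h4⟩
    refine ⟨fun w hw => ?_, h2⟩
    rw [mem_Rm]
    exact ⟨h1 hw, fun h => h3 (h ▸ hw), h4 w hw⟩
  · rintro ⟨h1, h2⟩
    refine ⟨⟨fun w hw => (mem_Rm.1 (h1 hw)).1, h2⟩, ?_, ?_⟩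
    · intro hu
      exact (mem_Rm.1 (h1 hu)).2.1 rfl
    · intro w hw
      exact (mem_Rm.1 (h1 hw)).2.2

theorem zu_eq' (N : Finset V) (l : V → ℝ) {u : V} (hu : u ∈ N) :
    Zu G N l u = l u * Zf G (Rm G N u) l := by
  rw [zu_eq N l hu, filt_eq, Zf]

theorem zf_split (N : Finset V) (l : V → ℝ) {u : V} (hu : u ∈ N) :
    Zf G N l = Zf G (N.erase u) l + l u * Zf G (Rm G N u) l := by
  rw [← zu_eq' N l hu, Zu]
  conv_lhs => rw [Zf]
  rw [← Finset.sum_filter_add_sum_filter_not (Ind G N) (fun A => u ∈ A), add_comm]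
  congr 1
  rw [Zf]
  refine Finset.sum_congr ?_ (fun _ _ => rfl)
  ext A
  rw [Finset.mem_filter, mem_ind, mem_ind]
  constructor
  · rintro ⟨⟨h1, h2⟩, h3⟩
    exact ⟨fun w hw => Finset.mem_erase.2 ⟨fun h => h3 (h ▸ hw), h1 hw⟩, h2⟩
  · rintro ⟨h1, h2⟩
    exact ⟨⟨h1.trans (Finset.erase_subset _ _), h2⟩, fun hu => Finset.notMem_erase u N (h1 hu)⟩

/-- small weighted degrees -/
theorem zf_deg (l : V → ℝ) (hl : ∀ u, 0 ≤ l u) (hl1 : ∀ u, l u ≤ 1) {B : ℝ} (hB : 0 ≤ B) :
    ∀ n : ℕ, ∀ N : Finset V, N.card = n → (∀ u ∈ N, ∑ w ∈ Nb G N u, l w ≤ B) →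
      Real.exp ((∑ u ∈ N, l u) / (B + 2)) ≤ Zf G N l := by
  intro n
  induction n using Nat.strong_induction_on with
  | _ n ih =>
    intro N hN hdeg
    by_cases hne : N = ∅
    · subst hne
      have h1 := zf_mono (G := G) (le_refl (∅ : Finset V)) l hl
      have h2 : Zf G (∅ : Finset V) l = 1 := by
        rw [Zf]
        have : Ind G (∅ : Finset V) = {∅} := by
          ext A
          rw [mem_ind, Finset.subset_empty, Finset.mem_singleton]
          constructor
          · exact fun h => h.1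
          · intro h; subst h; simp
        rw [this]; simp
      rw [h2]; simp
    · obtain ⟨u, hu⟩ := Finset.nonempty_iff_ne_empty.2 hne
      rw [zf_split N l hu]
      have hα : 0 < B + 2 := by linarith
      have hsub : ∀ M : Finset V, M ⊆ N → ∀ w ∈ M, ∑ x ∈ Nb G M w, l x ≤ B := by
        intro M hM w hw
        refine le_trans ?_ (hdeg w (hM hw))
        refine Finset.sum_le_sum_of_subset_of_nonneg ?_ (fun x _ _ => hl x)
        intro x hx
        rw [mem_Nb] at hx ⊢
        exact ⟨hM hx.1, hx.2⟩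
      have hc1 : (N.erase u).card < n := by rw [← hN]; exact Finset.card_erase_lt_of_mem hu
      have hR : Rm G N u ⊆ N.erase u := by
        intro w hw
        rw [mem_Rm] at hw
        exact Finset.mem_erase.2 ⟨hw.2.1, hw.1⟩
      have hc2 : (Rm G N u).card < n := lt_of_le_of_lt (Finset.card_le_card hR) hc1
      have i1 := ih _ hc1 (N.erase u) rfl (hsub _ (Finset.erase_subset _ _))
      have i2 := ih _ hc2 (Rm G N u) rfl (hsub _ (hR.trans (Finset.erase_subset _ _)))
      set Λ := ∑ w ∈ N, l w with hΛ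
      have s1 : ∑ w ∈ N.erase u, l w = Λ - l u := by
        rw [hΛ, ← Finset.add_sum_erase _ _ hu]; ring
      have s2 : Λ - l u - B ≤ ∑ w ∈ Rm G N u, l w := by
        have h1 : ∑ w ∈ N.erase u, l w ≤ ∑ w ∈ Rm G N u, l w + ∑ w ∈ Nb G N u, l w := by
          rw [← Finset.sum_filter_add_sum_filter_not (N.erase u) (fun w => ¬ G.Adj u w)]
          refine add_le_add ?_ ?_
          · refine Finset.sum_le_sum_of_subset_of_nonneg ?_ (fun x _ _ => hl x)
            intro w hw
            rw [Finset.mem_filter, Finset.mem_erase] at hw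
            rw [mem_Rm]
            exact ⟨hw.1.2, hw.1.1, hw.2⟩
          · refine Finset.sum_le_sum_of_subset_of_nonneg ?_ (fun x _ _ => hl x)
            intro w hw
            rw [Finset.mem_filter, Finset.mem_erase, not_not] at hw
            rw [mem_Nb]
            exact ⟨hw.1.2, hw.2⟩
        have h2 := hdeg u hu
        linarith
      rw [s1] at i1
      have i3 : Real.exp ((Λ - l u - B) / (B + 2)) ≤ Zf G (Rm G N u) l := by
        refine le_trans (Real.exp_le_exp.2 ?_) i2
        exact div_le_div_of_nonneg_right s2 hα.le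
      have e1 : (Λ - l u) / (B + 2) = Λ / (B + 2) + (-(l u / (B + 2))) := by ring
      have e2 : (Λ - l u - B) / (B + 2) = Λ / (B + 2) + (-((l u + B) / (B + 2))) := by ring
      rw [e1, Real.exp_add] at i1
      rw [e2, Real.exp_add] at i3
      have hE := Real.exp_pos (Λ / (B + 2))
      have f1 : 1 - l u / (B + 2) ≤ Real.exp (-(l u / (B + 2))) := by
        have := Real.add_one_le_exp (-(l u / (B + 2)))
        linarith
      have f2 : 1 - (l u + B) / (B + 2) ≤ Real.exp (-((l u + B) / (B + 2))) := by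
        have := Real.add_one_le_exp (-((l u + B) / (B + 2)))
        linarith
      have hlu := hl u
      have hlu1 := hl1 u
      have f3 : 1 ≤ Real.exp (-(l u / (B + 2))) + l u * Real.exp (-((l u + B) / (B + 2))) := by
        have g1 := mul_le_mul_of_nonneg_left f2 hlu
        have g2 : 1 ≤ (1 - l u / (B + 2)) + l u * (1 - (l u + B) / (B + 2)) := by
          have g3 : (1 - l u / (B + 2)) + l u * (1 - (l u + B) / (B + 2)) - 1 =
              l u * (1 - l u) / (B + 2) := by
            field_simp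
            ring
          have g4 : 0 ≤ l u * (1 - l u) / (B + 2) :=
            div_nonneg (mul_nonneg hlu (by linarith)) hα.le
          linarith
        linarith
      have i4 := mul_le_mul_of_nonneg_left i3 hlu
      have f4 := mul_le_mul_of_nonneg_left f3 hE.le
      nlinarith

/-- cliques in neighbourhoods -/
theorem clique_nb {N : Finset V} {s : ℕ} (h : ∀ K ⊆ N, G.IsClique (K : Set V) → K.card < s + 1)
    {u : V} (hu : u ∈ N) : ∀ K ⊆ Nb G N u, G.IsClique (K : Set V) → K.card < s := by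
  intro K hK hc
  have huK : u ∉ K := fun h => (mem_Nb.1 (hK h)).2.ne rfl
  have h1 := h (insert u K) (Finset.insert_subset hu (fun w hw => (mem_Nb.1 (hK hw)).1)) (by
    rw [Finset.coe_insert, SimpleGraph.isClique_insert_of_notMem (by exact_mod_cast huK)]
    exact ⟨hc, fun w hw => (mem_Nb.1 (hK (by exact_mod_cast hw))).2⟩)
  rw [Finset.card_insert_of_notMem huK] at h1
  omega

/-- cliques with fewer than `s` vertices, first bound -/
theorem zf_clique (l : V → ℝ) (hl : ∀ u, 0 ≤ l u) (hl1 : ∀ u, l u ≤ 1) {y : ℝ} (hy : 1 ≤ y) :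
    ∀ s : ℕ, ∀ N : Finset V, (∀ K ⊆ N, G.IsClique (K : Set V) → K.card < s + 1) →
      (3 * y) ^ s ≤ ∑ u ∈ N, l u → Real.exp y ≤ Zf G N l := by
  intro s
  induction s with
  | zero =>
    intro N hN hΛ
    exfalso
    have hemp : N = ∅ := by
      by_contra hne
      obtain ⟨u, hu⟩ := Finset.nonempty_iff_ne_empty.2 hne
      have := hN {u} (by simpa using hu) (by simp)
      simp at this
    subst hemp
    simp at hΛ
    linarith
  | succ s ih =>
    intro N hN hΛ
    by_cases hcase : ∃ u ∈ N, (3 * y) ^ s ≤ ∑ w ∈ Nb G N u, l w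
    · obtain ⟨u, hu, hw⟩ := hcase
      refine (ih (Nb G N u) (clique_nb hN hu) hw).trans ?_
      exact zf_mono (Finset.filter_subset _ _) l hl
    · push Not at hcase
      have hB : 1 ≤ (3 * y) ^ s := one_le_pow₀ (by linarith)
      have h1 := zf_deg (G := G) l hl hl1 (B := (3 * y) ^ s) (by linarith) _ N rfl
        (fun u hu => (hcase u hu).le)
      refine le_trans (Real.exp_le_exp.2 ?_) h1
      rw [le_div_iff₀ (by linarith)]
      refine le_trans ?_ hΛ
      rw [pow_succ]
      nlinarith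

end Pool.Agent.Q149.HY
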