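import Mathlib
import Pool.Agent.Q149.HY.Occ

set_option autoImplicit false

/-!
# Local occupancy for weighted graphs with small clique number: the second bound
-/

namespace Pool.Agent.Q149.HY

open Finset Classical Pool.Agent.TH855

set_option linter.unusedSectionVars false

variable {V : Type} [Fintype V] {G : SimpleGraph V}

/-- independent sets with `k` elements -/
noncomputable def Zk (G : SimpleGraph V) (N : Finset V) (l : V → ℝ) (k : ℕ) : ℝ :=
  ∑ A ∈ (Ind G N).filter (fun A => A.card = k), ∏ u ∈ A, l u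

theorem zk_le (N : Finset V) (l : V → ℝ) (hl : ∀ u, 0 ≤ l u) (k : ℕ) : Zk G N l k ≤ Zf G N l := by
  rw [Zk, Zf]
  exact Finset.sum_le_sum_of_subset_of_nonneg (Finset.filter_subset _ _)
    (fun A _ _ => Finset.prod_nonneg (fun u _ => hl u))

theorem zk_step (N : Finset V) (l : V → ℝ) (k : ℕ) {u : V} (hu : u ∈ N) :
    l u * Zk G (Rm G N u) l k =
      ∑ A ∈ ((Ind G N).filter (fun A => A.card = k + 1)).filter (fun A => u ∈ A),
        ∏ w ∈ A, l w := by
  rw [Zk, Finset.mul_sum]
  symm
  refine Finset.sum_bij' (fun A _ => A.erase u) (fun A _ => insert u A) ?_ ?_ ?_ ?_ ?_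
  · intro A hA
    rw [Finset.mem_filter, Finset.mem_filter, mem_ind] at hA
    obtain ⟨⟨⟨h1, h2⟩, h3⟩, h4⟩ := hA
    rw [Finset.mem_filter, mem_ind]
    refine ⟨⟨?_, ?_⟩, ?_⟩
    · intro w hw
      rw [mem_Rm]
      exact ⟨h1 (Finset.mem_of_mem_erase hw), (Finset.mem_erase.1 hw).1,
        h2 u h4 w (Finset.mem_of_mem_erase hw)⟩
    · intro a ha b hb
      exact h2 a (Finset.mem_of_mem_erase ha) b (Finset.mem_of_mem_erase hb)
    · rw [Finset.card_erase_of_mem h4, h3]; rfl
  · intro A hA
    rw [Finset.mem_filter, mem_ind] at hA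
    obtain ⟨⟨h1, h2⟩, h3⟩ := hA
    have huA : u ∉ A := fun h => (mem_Rm.1 (h1 h)).2.1 rfl
    rw [Finset.mem_filter, Finset.mem_filter, mem_ind]
    refine ⟨⟨⟨?_, ?_⟩, ?_⟩, Finset.mem_insert_self _ _⟩
    · exact Finset.insert_subset hu (fun w hw => (mem_Rm.1 (h1 hw)).1)
    · intro a ha b hb
      rcases Finset.mem_insert.1 ha with ha1 | ha1
      · rcases Finset.mem_insert.1 hb with hb1 | hb1
        · rw [ha1, hb1]; exact G.loopless.irrefl _
        · rw [ha1]; exact (mem_Rm.1 (h1 hb1)).2.2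
      · rcases Finset.mem_insert.1 hb with hb1 | hb1
        · rw [hb1]; intro h; exact (mem_Rm.1 (h1 ha1)).2.2 h.symm
        · exact h2 a ha1 b hb1
    · rw [Finset.card_insert_of_notMem huA, h3]
  · intro A hA
    rw [Finset.mem_filter] at hA
    exact Finset.insert_erase hA.2
  · intro A hA
    rw [Finset.mem_filter, mem_ind] at hA
    have huA : u ∉ A := fun h => (mem_Rm.1 (hA.1.1 h)).2.1 rfl
    exact Finset.erase_insert huA
  · intro A hA
    rw [Finset.mem_filter] at hA
    rw [Finset.mul_prod_erase _ _ hA.2]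

theorem zk_succ (N : Finset V) (l : V → ℝ) (k : ℕ) :
    ∑ u ∈ N, l u * Zk G (Rm G N u) l k = (k + 1) * Zk G N l (k + 1) := by
  rw [Finset.sum_congr rfl (fun u hu => zk_step N l k hu)]
  have h1 : ∀ u ∈ N, ∑ A ∈ ((Ind G N).filter (fun A => A.card = k + 1)).filter (fun A => u ∈ A),
        ∏ w ∈ A, l w = ∑ A ∈ (Ind G N).filter (fun A => A.card = k + 1),
          if u ∈ A then ∏ w ∈ A, l w else 0 := by
    intro u _
    rw [Finset.sum_filter]
  rw [Finset.sum_congr rfl h1, Finset.sum_comm, Zk, Finset.mul_sum]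
  refine Finset.sum_congr rfl (fun A hA => ?_)
  rw [Finset.mem_filter, mem_ind] at hA
  rw [← Finset.sum_filter, Finset.sum_const, nsmul_eq_mul]
  congr 1
  have : N.filter (fun u => u ∈ A) = A := by
    ext u
    rw [Finset.mem_filter]
    exact ⟨fun h => h.2, fun h => ⟨hA.1.1 h, h⟩⟩
  rw [this, hA.2]
  push_cast
  ring

/-- ordered independent sets -/
noncomputable def Yk (G : SimpleGraph V) (l : V → ℝ) : ℕ → Finset V → ℝ
  | 0, _ => 1
  | k + 1, N => ∑ u ∈ N, l u * Yk G l k (Rm G N u)

theorem yk_nonneg (l : V → ℝ) (hl : ∀ u, 0 ≤ l u) : ∀ k : ℕ, ∀ N : Finset V, 0 ≤ Yk G l k N := by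
  intro k
  induction k with
  | zero => intro N; rw [Yk]; norm_num
  | succ k ih =>
    intro N
    rw [Yk]
    exact Finset.sum_nonneg (fun u _ => mul_nonneg (hl u) (ih _))

theorem yk_mono (l : V → ℝ) (hl : ∀ u, 0 ≤ l u) : ∀ k : ℕ, ∀ N N' : Finset V, N ⊆ N' →
    Yk G l k N ≤ Yk G l k N' := by
  intro k
  induction k with
  | zero => intro N N' _; rw [Yk, Yk]
  | succ k ih =>
    intro N N' h
    rw [Yk, Yk]
    refine le_trans (Finset.sum_le_sum (fun u _ => mul_le_mul_of_nonneg_left
      (ih (Rm G N u) (Rm G N' u) ?_) (hl u))) ?_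
    · intro w hw
      rw [mem_Rm] at hw ⊢
      exact ⟨h hw.1, hw.2⟩
    · exact Finset.sum_le_sum_of_subset_of_nonneg h
        (fun u _ _ => mul_nonneg (hl u) (yk_nonneg l hl _ _))

theorem yk_eq (l : V → ℝ) : ∀ k : ℕ, ∀ N : Finset V, Yk G l k N = k.factorial * Zk G N l k := by
  intro k
  induction k with
  | zero =>
    intro N
    rw [Yk, Zk]
    have : (Ind G N).filter (fun A => A.card = 0) = {∅} := by
      ext A
      rw [Finset.mem_filter, mem_ind, Finset.card_eq_zero, Finset.mem_singleton]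
      constructor
      · exact fun h => h.2
      · intro h; subst h; simp
    rw [this]; simp
  | succ k ih =>
    intro N
    rw [Yk]
    have h1 : ∑ u ∈ N, l u * Yk G l k (Rm G N u) =
        k.factorial * ∑ u ∈ N, l u * Zk G (Rm G N u) l k := by
      rw [Finset.mul_sum]
      refine Finset.sum_congr rfl (fun u _ => ?_)
      rw [ih]; ring
    rw [h1, zk_succ, Nat.factorial_succ]
    push_cast
    ring

theorem yk_clique (l : V → ℝ) (hl : ∀ u, 0 ≤ l u) (hl1 : ∀ u, l u ≤ 1) :
    ∀ s k : ℕ, ∀ N : Finset V, (∀ K ⊆ N, G.IsClique (K : Set V) → K.card < s + 1) →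
      (2 * (s : ℝ)) ^ k ≤ ∑ u ∈ N, l u →
      (∑ u ∈ N, l u) ^ k ≤ (2 * (s : ℝ)) ^ (k ^ 2) * Yk G l k N := by
  intro s
  induction s with
  | zero =>
    intro k N hN hΛ
    have hemp : N = ∅ := by
      by_contra hne
      obtain ⟨u, hu⟩ := Finset.nonempty_iff_ne_empty.2 hne
      have := hN {u} (by simpa using hu) (by simp)
      simp at this
    subst hemp
    cases k with
    | zero => rw [Yk]; simp
    | succ k => rw [Yk]; simp
  | succ s ih =>
    intro k
    induction k with
    | zero => intro N _ _; rw [Yk]; simp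
    | succ k ihk =>
      intro N hN hΛ
      set Λ := ∑ u ∈ N, l u with hΛd
      have hS : (1 : ℝ) ≤ ((s + 1 : ℕ) : ℝ) := by push_cast; linarith [(Nat.cast_nonneg s : (0:ℝ) ≤ s)]
      set S : ℝ := ((s + 1 : ℕ) : ℝ) with hSd
      have hsS : (s : ℝ) = S - 1 := by rw [hSd]; push_cast; ring
      have h2S : 1 ≤ 2 * S := by linarith
      have hΛ1 : 2 * S ≤ Λ := by
        refine le_trans ?_ hΛ
        calc 2 * S = (2 * S) ^ 1 := by ring
          _ ≤ (2 * S) ^ (k + 1) := pow_le_pow_right₀ h2S (by omega)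
      have hΛ0 : 0 < Λ := by linarith
      by_cases hcase : ∃ u ∈ N, (S - 1) / S * Λ < ∑ w ∈ Nb G N u, l w
      · obtain ⟨u, hu, hw⟩ := hcase
        set Λ' := ∑ w ∈ Nb G N u, l w with hΛ'
        have hcl := clique_nb hN hu
        rcases Nat.eq_zero_or_pos s with hs | hs
        · exfalso
          subst hs
          have hemp : Nb G N u = ∅ := by
            by_contra hne
            obtain ⟨w, hw'⟩ := Finset.nonempty_iff_ne_empty.2 hne
            have := hcl {w} (by simpa using hw') (by simp)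
            simp at this
          rw [hΛ', hemp] at hw
          have : S = 1 := by rw [hSd]; norm_num
          rw [this] at hw
          simp at hw
        · have hs1 : (1 : ℝ) ≤ s := by exact_mod_cast hs
          have hs0 : (0 : ℝ) < s := by linarith
          rw [← hsS] at hw
          have hS0 : 0 < S := by linarith
          have hr : (s : ℝ) / S ≤ 1 := by rw [div_le_one hS0]; linarith
          have hr0 : 0 < (s : ℝ) / S := by positivity
          have hΛ'1 : (2 * (s : ℝ)) ^ (k + 1) ≤ Λ' := by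
            have h1 : (2 * (s : ℝ)) ^ (k + 1) = ((s : ℝ) / S) ^ (k + 1) * (2 * S) ^ (k + 1) := by
              rw [← mul_pow]; congr 1; field_simp
            rw [h1]
            have h2 : ((s : ℝ) / S) ^ (k + 1) ≤ (s : ℝ) / S := by
              calc ((s : ℝ) / S) ^ (k + 1) ≤ ((s : ℝ) / S) ^ 1 :=
                    pow_le_pow_of_le_one hr0.le hr (by omega)
                _ = _ := pow_one _
            calc ((s : ℝ) / S) ^ (k + 1) * (2 * S) ^ (k + 1) ≤ (s : ℝ) / S * Λ :=
                  mul_le_mul h2 hΛ (by positivity) hr0.le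
              _ ≤ Λ' := hw.le
          have h3 := ih (k + 1) (Nb G N u) hcl hΛ'1
          have h4 : Λ ≤ S / s * Λ' := by
            have h5 : Λ = S / s * ((s : ℝ) / S * Λ) := by field_simp
            rw [h5]
            exact mul_le_mul_of_nonneg_left hw.le (by positivity)
          have hSs : 1 ≤ S / s := by rw [one_le_div hs0]; linarith
          have hy0 := yk_nonneg (G := G) l hl (k + 1) N
          calc Λ ^ (k + 1) ≤ (S / s * Λ') ^ (k + 1) := pow_le_pow_left₀ hΛ0.le h4 _
            _ = (S / s) ^ (k + 1) * Λ' ^ (k + 1) := by rw [mul_pow]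
            _ ≤ (S / s) ^ ((k + 1) ^ 2) * ((2 * (s : ℝ)) ^ ((k + 1) ^ 2) * Yk G l (k + 1) N) := by
                have hΛ'0 : 0 ≤ Λ' := le_trans (by positivity) hΛ'1
                refine mul_le_mul ?_ ?_ (pow_nonneg hΛ'0 _) (by positivity)
                · exact pow_le_pow_right₀ hSs (by nlinarith)
                · refine h3.trans ?_
                  exact mul_le_mul_of_nonneg_left
                    (yk_mono l hl _ _ _ (Finset.filter_subset _ _)) (by positivity)
            _ = (2 * S) ^ ((k + 1) ^ 2) * Yk G l (k + 1) N := by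
                rw [← mul_assoc, ← mul_pow]
                congr 2
                field_simp
      · push Not at hcase
        have hS0 : 0 < S := by linarith
        have hRm : ∀ u ∈ N, Λ / (2 * S) ≤ ∑ w ∈ Rm G N u, l w := by
          intro u hu
          have h1 : Λ ≤ l u + (∑ w ∈ Rm G N u, l w + ∑ w ∈ Nb G N u, l w) := by
            rw [hΛd, ← Finset.add_sum_erase _ _ hu]
            refine add_le_add (le_refl _) ?_
            rw [← Finset.sum_filter_add_sum_filter_not (N.erase u) (fun w => ¬ G.Adj u w)]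
            refine add_le_add ?_ ?_
            · refine Finset.sum_le_sum_of_subset_of_nonneg ?_ (fun x _ _ => hl x)
              intro w hw
              rw [Finset.mem_filter, Finset.mem_erase] at hw
              rw [mem_Rm]
              exact ⟨hw.1.2, hw.1.1, hw.2⟩
            · refine Finset.sum_le_sum_of_subset_of_nonneg ?_ (fun x _ _ => hl x)
              intro w hw
              rw [Finset.mem_filter, Finset.mem_erase, not_not] at hw
              rw [mem_Nb]
              exact ⟨hw.1.2, hw.2⟩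
          have h2 := hcase u hu
          have h3 := hl1 u
          have h4 : (S - 1) / S * Λ = Λ - Λ / S := by field_simp
          have h5 : Λ / (2 * S) = (Λ / S) / 2 := by field_simp
          have h6 : 2 ≤ Λ / S := by rw [le_div_iff₀ hS0]; linarith
          rw [h5]
          linarith
        have hk : ∀ u ∈ N, (Λ / (2 * S)) ^ k ≤ (2 * S) ^ (k ^ 2) * Yk G l k (Rm G N u) := by
          intro u hu
          have h1 := hRm u hu
          have h2 := ihk (Rm G N u) (fun K hK => hN K (hK.trans (Finset.filter_subset _ _))) (by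
            refine le_trans ?_ h1
            rw [le_div_iff₀ (by positivity), ← pow_succ]
            exact hΛ)
          refine le_trans ?_ h2
          exact pow_le_pow_left₀ (by positivity) h1 _
        have h7 : Λ * (Λ / (2 * S)) ^ k ≤ (2 * S) ^ (k ^ 2) * Yk G l (k + 1) N := by
          have h8 : (2 * S) ^ (k ^ 2) * Yk G l (k + 1) N =
              ∑ u ∈ N, l u * ((2 * S) ^ (k ^ 2) * Yk G l k (Rm G N u)) := by
            rw [Yk, Finset.mul_sum]
            exact Finset.sum_congr rfl (fun u _ => by ring)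
          rw [h8, hΛd, Finset.sum_mul]
          exact Finset.sum_le_sum (fun u hu => mul_le_mul_of_nonneg_left (hk u hu) (hl u))
        have hy0 := yk_nonneg (G := G) l hl (k + 1) N
        have h9 : Λ ^ (k + 1) = (2 * S) ^ k * (Λ * (Λ / (2 * S)) ^ k) := by
          rw [div_pow, pow_succ]
          field_simp
        calc Λ ^ (k + 1) = (2 * S) ^ k * (Λ * (Λ / (2 * S)) ^ k) := h9
          _ ≤ (2 * S) ^ k * ((2 * S) ^ (k ^ 2) * Yk G l (k + 1) N) :=
              mul_le_mul_of_nonneg_left h7 (by positivity)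
          _ = (2 * S) ^ (k + k ^ 2) * Yk G l (k + 1) N := by rw [pow_add]; ring
          _ ≤ (2 * S) ^ ((k + 1) ^ 2) * Yk G l (k + 1) N := by
              refine mul_le_mul_of_nonneg_right ?_ hy0
              exact pow_le_pow_right₀ h2S (by nlinarith)

/-- the second bound: a graph with clique number at most `s` and large weight has many
independent sets -/
theorem zf_clique2 (l : V → ℝ) (hl : ∀ u, 0 ≤ l u) (hl1 : ∀ u, l u ≤ 1) {s : ℕ} (hs : 1 ≤ s)
    (k : ℕ) (N : Finset V) (hN : ∀ K ⊆ N, G.IsClique (K : Set V) → K.card < s + 1)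
    (hΛ : (2 * (s : ℝ)) ^ (3 * k) ≤ ∑ u ∈ N, l u) : (2 * (s : ℝ)) ^ (k ^ 2) ≤ Zf G N l := by
  have hs1 : (1 : ℝ) ≤ s := by exact_mod_cast hs
  have h2s : 1 ≤ 2 * (s : ℝ) := by linarith
  have h1 := yk_clique (G := G) l hl hl1 s k N hN (by
    refine le_trans (pow_le_pow_right₀ h2s (by omega)) hΛ)
  rw [yk_eq] at h1
  have h2 : ((2 * (s : ℝ)) ^ (3 * k)) ^ k ≤ (∑ u ∈ N, l u) ^ k :=
    pow_le_pow_left₀ (by positivity) hΛ k
  have hz := zk_le (G := G) N l hl k
  have hz0 := zf_pos (G := G) N l hl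
  have h3 : (k.factorial : ℝ) ≤ (2 * (s : ℝ)) ^ (k ^ 2) := by
    have h4 : (k.factorial : ℝ) ≤ (k : ℝ) ^ k := by exact_mod_cast Nat.factorial_le_pow k
    have h5 : (k : ℝ) ≤ 2 ^ k := by exact_mod_cast (Nat.lt_two_pow_self (n := k)).le
    calc (k.factorial : ℝ) ≤ (k : ℝ) ^ k := h4
      _ ≤ (2 ^ k) ^ k := pow_le_pow_left₀ (by positivity) h5 _
      _ = 2 ^ (k ^ 2) := by rw [← pow_mul]; congr 1; ring
      _ ≤ (2 * (s : ℝ)) ^ (k ^ 2) := pow_le_pow_left₀ (by norm_num) (by linarith) _
  have h6 : (2 * (s : ℝ)) ^ (3 * k ^ 2) ≤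
      (2 * (s : ℝ)) ^ (2 * k ^ 2) * Zf G N l := by
    calc (2 * (s : ℝ)) ^ (3 * k ^ 2) = ((2 * (s : ℝ)) ^ (3 * k)) ^ k := by
          rw [← pow_mul]; congr 1; ring
      _ ≤ (∑ u ∈ N, l u) ^ k := h2
      _ ≤ (2 * (s : ℝ)) ^ (k ^ 2) * (k.factorial * Zk G N l k) := h1
      _ ≤ (2 * (s : ℝ)) ^ (k ^ 2) * ((2 * (s : ℝ)) ^ (k ^ 2) * Zf G N l) := by
          refine mul_le_mul_of_nonneg_left ?_ (by positivity)
          refine mul_le_mul h3 hz ?_ (by positivity)
          rw [Zk]
          exact Finset.sum_nonneg (fun A _ => Finset.prod_nonneg (fun u _ => hl u))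
      _ = (2 * (s : ℝ)) ^ (2 * k ^ 2) * Zf G N l := by
          rw [← mul_assoc, ← pow_add]; congr 2; ring
  have h7 : (2 * (s : ℝ)) ^ (3 * k ^ 2) = (2 * (s : ℝ)) ^ (2 * k ^ 2) * (2 * (s : ℝ)) ^ (k ^ 2) := by
    rw [← pow_add]; congr 1; ring
  rw [h7] at h6
  exact le_of_mul_le_mul_left h6 (by positivity)

end Pool.Agent.Q149.HY
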