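import Mathlib
import Pool.Agent.Q149.HY.Occ2
import Pool.Agent.Q149.HY.C

set_option autoImplicit false

/-!
# Colourings from local occupancy for graphs with small clique number
-/

namespace Pool.Agent.Q149.HY

open Finset Classical Pool.Agent.TH855 Pool.Agent.Helper311.Glue

set_option linter.unusedSectionVars false

variable {V : Type} [Fintype V] {G : SimpleGraph V}

/-- Jensen's inequality -/
theorem jensen (N : Finset V) (l : V → ℝ) (hl : ∀ u, 0 ≤ l u) {T S : ℝ}
    (hZ : Real.exp T ≤ Zf G N l) (hS : ∑ u ∈ N, l u ≤ Real.exp S) :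
    (T - 1) * Zf G N l ≤ S * Mf G N l := by
  set Z := Zf G N l with hZd
  set M := Mf G N l with hMd
  have hZ0 : 0 < Z := zf_pos N l hl
  obtain ⟨μ, hμ⟩ : ∃ μ : ℝ, μ = M / Z := ⟨_, rfl⟩
  have hM : M = μ * Z := by rw [hμ]; field_simp
  have h1 : Zf G N (fun u => Real.exp (-S) * l u) ≤ Real.exp 1 := by
    refine (zf_le_exp N _ (fun u => mul_nonneg (Real.exp_pos _).le (hl u))).trans ?_
    apply Real.exp_le_exp.2
    rw [← Finset.mul_sum]
    calc Real.exp (-S) * ∑ u ∈ N, l u ≤ Real.exp (-S) * Real.exp S :=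
          mul_le_mul_of_nonneg_left hS (Real.exp_pos _).le
      _ = 1 := by rw [← Real.exp_add]; simp
  have h2 : Real.exp (-(S * μ)) * Z ≤ Zf G N (fun u => Real.exp (-S) * l u) := by
    have h3 : Zf G N (fun u => Real.exp (-S) * l u) =
        ∑ A ∈ Ind G N, Real.exp (-(S * A.card)) * ∏ u ∈ A, l u := by
      rw [Zf]
      refine Finset.sum_congr rfl (fun A _ => ?_)
      rw [Finset.prod_mul_distrib, Finset.prod_const, ← Real.exp_nat_mul]
      congr 2
      ring
    rw [h3]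
    have h4 : ∀ A ∈ Ind G N, Real.exp (-(S * μ)) * (1 - S * ((A.card : ℝ) - μ)) * ∏ u ∈ A, l u ≤
        Real.exp (-(S * A.card)) * ∏ u ∈ A, l u := by
      intro A _
      refine mul_le_mul_of_nonneg_right ?_ (Finset.prod_nonneg (fun u _ => hl u))
      have h5 : Real.exp (-(S * A.card)) =
          Real.exp (-(S * μ)) * Real.exp (-(S * ((A.card : ℝ) - μ))) := by
        rw [← Real.exp_add]; congr 1; ring
      rw [h5]
      refine mul_le_mul_of_nonneg_left ?_ (Real.exp_pos _).le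
      have := Real.add_one_le_exp (-(S * ((A.card : ℝ) - μ)))
      linarith
    refine le_trans ?_ (Finset.sum_le_sum h4)
    have h6 : ∑ A ∈ Ind G N, Real.exp (-(S * μ)) * (1 - S * ((A.card : ℝ) - μ)) * ∏ u ∈ A, l u =
        Real.exp (-(S * μ)) * ((1 + S * μ) * Z - S * M) := by
      rw [hZd, hMd, Zf, Mf, Finset.mul_sum, Finset.mul_sum, ← Finset.sum_sub_distrib,
        Finset.mul_sum]
      refine Finset.sum_congr rfl (fun A _ => ?_)
      ring
    rw [h6, hM]
    apply le_of_eq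
    ring
  have h7 : Real.exp (-(S * μ)) * Real.exp T ≤ Real.exp 1 :=
    (mul_le_mul_of_nonneg_left hZ (Real.exp_pos _).le).trans (h2.trans h1)
  rw [← Real.exp_add, Real.exp_le_exp] at h7
  rw [hM]
  have h8 : T - 1 ≤ S * μ := by linarith
  have := mul_le_mul_of_nonneg_right h8 hZ0.le
  linarith

theorem zf_cont (N : Finset V) (l : V → ℝ) : Continuous (fun s : ℝ => Zf G N (fun u => s * l u)) := by
  simp only [Zf]
  fun_prop

/-- local occupancy -/
theorem occ_gen (N : Finset V) (l : V → ℝ) (hl : ∀ u, 0 ≤ l u) (hl1 : ∀ u, l u ≤ 1) {T S : ℝ}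
    (hT : 1 < T) (hS0 : 0 ≤ S)
    (hS : ∀ m : V → ℝ, (∀ u, 0 ≤ m u) → (∀ u, m u ≤ 1) → Zf G N m ≤ Real.exp T →
      ∑ u ∈ N, m u ≤ Real.exp S) :
    Zf G N l ≤ Real.exp T + S / (T - 1) * Mf G N l := by
  have hM := mf_nonneg (G := G) N l hl
  have hT1 : 0 < T - 1 := by linarith
  by_cases hZ : Zf G N l ≤ Real.exp T
  · have : 0 ≤ S / (T - 1) * Mf G N l := mul_nonneg (div_nonneg hS0 hT1.le) hM
    linarith
  · push Not at hZ
    have hiv := intermediate_value_Icc (zero_le_one (α := ℝ)) (zf_cont (G := G) N l).continuousOn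
    have h0 : Zf G N (fun u => (0 : ℝ) * l u) ≤ Real.exp T := by
      refine (zf_le_exp N _ (fun u => by simp)).trans ?_
      simp
      linarith
    have h1 : Zf G N (fun u => (1 : ℝ) * l u) = Zf G N l := by
      congr 1
      funext u
      rw [one_mul]
    obtain ⟨s, hs, hsZ⟩ := hiv ⟨h0, by simp only [h1]; exact hZ.le⟩
    simp only at hsZ
    have hm0 : ∀ u, 0 ≤ s * l u := fun u => mul_nonneg hs.1 (hl u)
    have hm1 : ∀ u, s * l u ≤ 1 := fun u =>
      mul_le_one₀ hs.2 (hl u) (hl1 u)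
    have h2 := jensen (G := G) N (fun u => s * l u) hm0 hsZ.ge
      (hS _ hm0 hm1 hsZ.le)
    have h3 := scale (G := G) N l hl hs.1 hs.2
    have hZs : 0 < Zf G N (fun u => s * l u) := zf_pos N _ hm0
    have hZ0 : 0 < Zf G N l := zf_pos N l hl
    set Zs := Zf G N (fun u => s * l u) with hZsd
    set Ms := Mf G N (fun u => s * l u) with hMsd
    set Z := Zf G N l with hZd
    set M := Mf G N l with hMd
    have h4 : (T - 1) * Z ≤ S * M := by
      have h5 : Zs * ((T - 1) * Z) ≤ Zs * (S * M) := by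
        calc Zs * ((T - 1) * Z) = ((T - 1) * Zs) * Z := by ring
          _ ≤ (S * Ms) * Z := mul_le_mul_of_nonneg_right h2 hZ0.le
          _ = S * (Ms * Z) := by ring
          _ ≤ S * (M * Zs) := mul_le_mul_of_nonneg_left h3 hS0
          _ = Zs * (S * M) := by ring
      exact le_of_mul_le_mul_left h5 hZs
    have h6 : Z ≤ S / (T - 1) * M := by
      rw [div_mul_eq_mul_div, le_div_iff₀ hT1]
      linarith
    have := Real.exp_pos T
    linarith

/-- a colouring from bounds for the weight of the sets with small independence polynomial -/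
theorem col_gen (Δ : ℕ) {L S : ℝ} (hL : L = Real.log (Δ : ℝ)) (hL6 : 6 ≤ L) (hS0 : 0 ≤ S)
    (hdeg : ∀ v, (univ.filter (fun w => G.Adj v w)).card ≤ Δ)
    (hS : ∀ v, ∀ N : Finset V, (∀ u ∈ N, G.Adj v u) → ∀ m : V → ℝ, (∀ u, 0 ≤ m u) →
      (∀ u, m u ≤ 1) → Zf G N m ≤ Real.exp (L / 3) → ∑ u ∈ N, m u ≤ Real.exp S)
    (q : ℕ) (hq : S / (L / 3 - 1) * Δ + 3 * Real.exp (2 * L / 3) ≤ q) : G.Colorable q := by
  have hΔ0 : (0 : ℝ) < Δ := by
    rcases Nat.eq_zero_or_pos Δ with h | h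
    · subst h
      rw [hL] at hL6
      simp at hL6
      linarith
    · exact_mod_cast h
  have hΔ : (Δ : ℝ) = Real.exp L := by rw [hL, Real.exp_log hΔ0]
  refine colorable_of_occ (s0 := 2) le_rfl Δ (β := Real.exp (L / 3)) (γ := S / (L / 3 - 1))
    (ℓ := Real.exp (L / 3)) (Real.exp_pos _) (div_nonneg hS0 (by linarith)) (Real.exp_pos _) hdeg
    ?_ ?_
  · intro v N hN l hl hl1
    refine occ_gen N l hl (fun u => ?_) (by linarith) hS0 (hS v N hN)
    have := hl1 u
    norm_num at this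
    exact this
  · have h1 : Real.exp (L / 3) * Real.exp (L / 3) = Real.exp (2 * L / 3) := by
      rw [← Real.exp_add]; congr 1; ring
    have h2 : (Δ : ℝ) * ((2 : ℕ) : ℝ) / Real.exp (L / 3) = 2 * Real.exp (2 * L / 3) := by
      rw [hΔ, div_eq_iff (Real.exp_pos _).ne', mul_assoc 2, ← Real.exp_add]
      push_cast
      rw [mul_comm]
      congr 2
      ring
    rw [h1, h2]
    linarith

/-- first bound for the weight -/
theorem weight1 {s : ℕ} {T : ℝ} (hT : 1 ≤ T) (N : Finset V)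
    (hN : ∀ K ⊆ N, G.IsClique (K : Set V) → K.card < s + 1) (m : V → ℝ) (hm : ∀ u, 0 ≤ m u)
    (hm1 : ∀ u, m u ≤ 1) (hZ : Zf G N m ≤ Real.exp T) :
    ∑ u ∈ N, m u ≤ Real.exp (s * Real.log (3 * (T + 1))) := by
  by_contra hcon
  push Not at hcon
  have h1 : Real.exp (s * Real.log (3 * (T + 1))) = (3 * (T + 1)) ^ s := by
    rw [Real.exp_nat_mul, Real.exp_log (by linarith)]
  rw [h1] at hcon
  have h2 := zf_clique (G := G) m hm hm1 (y := T + 1) (by linarith) s N hN hcon.le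
  have h3 := h2.trans hZ
  rw [Real.exp_le_exp] at h3
  linarith

/-- second bound for the weight -/
theorem weight2 {s : ℕ} (hs : 1 ≤ s) {T : ℝ} (hT : 1 ≤ T) (hsT : Real.log (2 * s) ≤ T)
    (N : Finset V)
    (hN : ∀ K ⊆ N, G.IsClique (K : Set V) → K.card < s + 1) (m : V → ℝ) (hm : ∀ u, 0 ≤ m u)
    (hm1 : ∀ u, m u ≤ 1) (hZ : Zf G N m ≤ Real.exp T) :
    ∑ u ∈ N, m u ≤ Real.exp (6 * Real.sqrt (T * Real.log (2 * s))) := by
  have hs1 : (1 : ℝ) ≤ s := by exact_mod_cast hs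
  obtain ⟨b, hb⟩ : ∃ b : ℝ, b = Real.log (2 * s) := ⟨_, rfl⟩
  rw [← hb] at hsT ⊢
  have hb0 : 0 < b := by rw [hb]; exact Real.log_pos (by linarith)
  have hexpb : Real.exp b = 2 * s := by rw [hb, Real.exp_log (by linarith)]
  obtain ⟨r, hr⟩ : ∃ r : ℝ, r = Real.sqrt (T / b) := ⟨_, rfl⟩
  have hr0 : 0 ≤ r := by rw [hr]; exact Real.sqrt_nonneg _
  have hr2 : r ^ 2 = T / b := by rw [hr]; exact Real.sq_sqrt (by positivity)
  have hr1 : 1 ≤ r := by
    rw [hr]
    apply Real.le_sqrt_of_sq_le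
    rw [one_pow, one_le_div hb0]
    exact hsT
  obtain ⟨k, hk⟩ : ∃ k : ℕ, k = ⌊r⌋₊ + 1 := ⟨_, rfl⟩
  have hk1 : r < k := by rw [hk]; push_cast; exact Nat.lt_floor_add_one r
  have hk2 : (k : ℝ) ≤ r + 1 := by
    rw [hk]; push_cast
    have := Nat.floor_le hr0
    linarith
  have hsq : Real.sqrt (T * b) = r * b := by
    rw [Real.sqrt_eq_iff_mul_self_eq (by positivity) (by positivity)]
    have : r * b * (r * b) = r ^ 2 * b * b := by ring
    rw [this, hr2]
    field_simp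
  by_contra hcon
  push Not at hcon
  have h1 : (2 * (s : ℝ)) ^ (3 * k) ≤ ∑ u ∈ N, m u := by
    refine le_trans ?_ hcon.le
    rw [← hexpb, ← Real.exp_nat_mul, hsq]
    apply Real.exp_le_exp.2
    push_cast
    have : (k : ℝ) * b ≤ 2 * (r * b) := by nlinarith
    linarith
  have h2 := (zf_clique2 (G := G) m hm hm1 hs k N hN h1).trans hZ
  rw [← hexpb, ← Real.exp_nat_mul, Real.exp_le_exp] at h2
  push_cast at h2
  have h3 : r ^ 2 * b < (k : ℝ) ^ 2 * b := by
    apply mul_lt_mul_of_pos_right _ hb0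
    nlinarith
  rw [hr2, div_mul_cancel₀ _ hb0.ne'] at h3
  linarith

end Pool.Agent.Q149.HY
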