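import Mathlib
import Pool.Agent.Q149.HY.D

set_option autoImplicit false

/-!
# (p,1)-total labellings of graphs with small clique number
-/

namespace Pool.Agent.Q149.HY

open Finset Classical Pool.Agent.TH855 Pool.Agent.Helper311.Glue Pool.Agent.TH104.HY

theorem colOn_ind {V : Type} (G : SimpleGraph V) (P : Set V) (n : ℕ)
    (h : (G.induce P).Colorable n) : ColOn G P n := by
  obtain ⟨C⟩ := h
  refine ⟨fun v => if hv : v ∈ P then (C ⟨v, hv⟩ : ℕ) else 0, ?_, ?_⟩
  · intro v hv
    simp only [hv, dif_pos]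
    exact (C ⟨v, hv⟩).2
  · intro u hu v hv huv
    simp only [hu, hv, dif_pos]
    intro h
    have h4 : (G.induce P).Adj ⟨u, hu⟩ ⟨v, hv⟩ := by simpa using huv
    exact C.valid h4 (Fin.ext h)

theorem deg_ind {V : Type} [Fintype V] (G : SimpleGraph V) [DecidableRel G.Adj] (P : Set V)
    (w : ℕ) (h : ∀ v ∈ P, ((G.neighborFinset v).filter (fun u => u ∈ P)).card ≤ w) (v : P) :
    (univ.filter (fun u => (G.induce P).Adj v u)).card ≤ w := by
  refine le_trans ?_ (h v.1 v.2)
  rw [← Finset.card_map (Function.Embedding.subtype (fun u => u ∈ P))]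
  refine Finset.card_le_card ?_
  intro u hu
  obtain ⟨z, hz, rfl⟩ := Finset.mem_map.1 hu
  rw [Finset.mem_filter, SimpleGraph.mem_neighborFinset]
  rw [Finset.mem_filter] at hz
  exact ⟨by simpa using hz.2, z.2⟩

/-- the function in the bound -/
noncomputable def phi (s : ℕ) (L : ℝ) : ℝ :=
  min (s * (Real.log L / L)) (Real.sqrt (Real.log s / L))

theorem phi_lower {s : ℕ} {L : ℝ} (hs : 2 ≤ s) (hL : 10 ^ 4 ≤ L) : 1 / L ≤ phi s L := by
  have hL0 : 0 < L := by linarith
  have hs2 : (2 : ℝ) ≤ s := by exact_mod_cast hs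
  rw [phi]
  refine le_min ?_ ?_
  · rw [mul_div_assoc', div_le_div_iff_of_pos_right hL0]
    have h1 : 1 ≤ Real.log L := by
      rw [Real.le_log_iff_exp_le hL0]
      have := Real.exp_one_lt_d9
      linarith
    nlinarith
  · apply Real.le_sqrt_of_sq_le
    rw [div_pow, one_pow, div_le_div_iff₀ (by positivity) hL0]
    have h1 : Real.log 2 ≤ Real.log s := Real.log_le_log (by norm_num) hs2
    have h2 := Real.log_two_gt_d9
    have h3 : 1 * L ≤ (1 / 2) * L ^ 2 := by nlinarith
    have h4 : (1 / 2) * L ^ 2 ≤ Real.log s * L ^ 2 :=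
      mul_le_mul_of_nonneg_right (by linarith) (by positivity)
    linarith

/-- the chromatic number of graphs with maximum degree at most `w` and clique number at most
`s` -/
theorem col_clique {V : Type} [Fintype V] (G : SimpleGraph V) (w s k : ℕ) {L : ℝ} (hs : 2 ≤ s)
    (hL : 10 ^ 4 ≤ L) (hw1 : L / 2 ≤ Real.log w) (hw2 : Real.log w ≤ L)
    (hphi : phi s L ≤ 1 / 1000)
    (hdeg : ∀ v, (univ.filter (fun u => G.Adj v u)).card ≤ w)
    (hcl : ∀ K : Finset V, G.IsClique (K : Set V) → K.card ≤ s)
    (hk : (35 * phi s L + 3 / L ^ 2) * w ≤ k) : G.Colorable k := by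
  have hL0 : 0 < L := by linarith
  have hs2 : (2 : ℝ) ≤ s := by exact_mod_cast hs
  obtain ⟨a, ha⟩ : ∃ a : ℝ, a = Real.log w := ⟨_, rfl⟩
  rw [← ha] at hw1 hw2
  have hlogs : Real.log (2 * s) ≤ 2 * Real.log s := by
    rw [Real.log_mul (by norm_num) (by linarith)]
    have h1 : Real.log 2 ≤ Real.log s := Real.log_le_log (by norm_num) hs2
    linarith
  have hlogs0 : 0 < Real.log s := Real.log_pos (by linarith)
  have hlogL : 0 < Real.log L := Real.log_pos (by linarith)
  have hphi0 : 0 ≤ phi s L := le_trans (by positivity) (phi_lower hs hL)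
  refine col_gen (S := 5 * (L * phi s L)) w ha (by linarith) (by positivity) hdeg ?_ k ?_
  · intro v N hN m hm hm1 hZ
    have hNcl : ∀ K ⊆ N, G.IsClique (K : Set V) → K.card < s + 1 := fun K _ hK =>
      Nat.lt_succ_of_le (hcl K hK)
    have hT : 1 ≤ a / 3 := by linarith
    rcases le_total (s * (Real.log L / L)) (Real.sqrt (Real.log s / L)) with h | h
    · have hph : phi s L = s * (Real.log L / L) := by rw [phi, min_eq_left h]
      refine (weight1 hT N hNcl m hm hm1 hZ).trans (Real.exp_le_exp.2 ?_)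
      rw [hph]
      have h1 : L * (s * (Real.log L / L)) = s * Real.log L := by field_simp
      rw [h1]
      have h2 : Real.log (3 * (a / 3 + 1)) ≤ 2 * Real.log L := by
        have h3 : (2 : ℝ) * Real.log L = Real.log (L ^ 2) := by
          rw [Real.log_pow]; norm_num
        rw [h3]
        apply Real.log_le_log (by linarith)
        nlinarith
      calc (s : ℝ) * Real.log (3 * (a / 3 + 1)) ≤ s * (2 * Real.log L) :=
            mul_le_mul_of_nonneg_left h2 (by linarith)
        _ ≤ 5 * (s * Real.log L) := by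
            have : 0 ≤ (s : ℝ) * Real.log L := by positivity
            linarith
    · have hph : phi s L = Real.sqrt (Real.log s / L) := by rw [phi, min_eq_right h]
      have h1 : Real.log s / L ≤ 1 / 1000 ^ 2 := by
        have h2 := hphi
        rw [hph] at h2
        have h3 := Real.sq_sqrt (show 0 ≤ Real.log s / L by positivity)
        have h4 : Real.sqrt (Real.log s / L) ^ 2 ≤ (1 / 1000) ^ 2 :=
          pow_le_pow_left₀ (Real.sqrt_nonneg _) h2 2
        rw [h3] at h4
        norm_num at h4 ⊢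
        exact h4
      rw [div_le_iff₀ hL0] at h1
      refine (weight2 (by omega) hT (by linarith) N hNcl m hm hm1 hZ).trans
        (Real.exp_le_exp.2 ?_)
      rw [hph]
      have h5 : L * Real.sqrt (Real.log s / L) = Real.sqrt (L * Real.log s) := by
        symm
        rw [Real.sqrt_eq_iff_mul_self_eq (by positivity) (by positivity)]
        have h6 := Real.mul_self_sqrt (show 0 ≤ Real.log s / L by positivity)
        symm
        calc L * Real.sqrt (Real.log s / L) * (L * Real.sqrt (Real.log s / L)) =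
              L * L * (Real.sqrt (Real.log s / L) * Real.sqrt (Real.log s / L)) := by ring
          _ = L * Real.log s := by rw [h6]; field_simp
      rw [h5]
      have h7 : Real.sqrt (a / 3 * Real.log (2 * s)) ≤ 5 / 6 * Real.sqrt (L * Real.log s) := by
        rw [Real.sqrt_le_left (by positivity), mul_pow, Real.sq_sqrt (by positivity)]
        have h8 : a / 3 * Real.log (2 * s) ≤ L / 3 * (2 * Real.log s) := by
          have h9 : 0 ≤ Real.log (2 * s) := Real.log_nonneg (by linarith)
          calc a / 3 * Real.log (2 * s) ≤ L / 3 * Real.log (2 * s) :=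
                mul_le_mul_of_nonneg_right (by linarith) h9
            _ ≤ _ := mul_le_mul_of_nonneg_left hlogs (by linarith)
        have h10 : 0 ≤ L * Real.log s := by positivity
        linarith
      linarith
  · have hΔ0 : (0 : ℝ) < w := by
      rcases Nat.eq_zero_or_pos w with h | h
      · subst h
        rw [ha] at hw1
        simp at hw1
        linarith
      · exact_mod_cast h
    have hwexp : (w : ℝ) = Real.exp a := by rw [ha, Real.exp_log hΔ0]
    refine le_trans ?_ hk
    rw [add_mul]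
    refine add_le_add ?_ ?_
    · refine mul_le_mul_of_nonneg_right ?_ hΔ0.le
      rw [div_le_iff₀ (by linarith)]
      have h1 : L / 7 ≤ a / 3 - 1 := by linarith
      calc 5 * (L * phi s L) = 35 * phi s L * (L / 7) := by ring
        _ ≤ 35 * phi s L * (a / 3 - 1) := mul_le_mul_of_nonneg_left h1 (by positivity)
    · have h1 : Real.exp (2 * a / 3) * Real.exp (a / 3) = w := by
        rw [hwexp, ← Real.exp_add]; congr 1; ring
      have h2 : L ^ 2 ≤ Real.exp (a / 3) := by
        have h3 : (L / 6) ^ 3 / 6 ≤ Real.exp (L / 6) := by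
          have := Real.pow_div_factorial_le_exp (L / 6) (by linarith) 3
          norm_num [Nat.factorial] at this
          exact this
        have h4 : Real.exp (L / 6) ≤ Real.exp (a / 3) := Real.exp_le_exp.2 (by linarith)
        refine le_trans ?_ (h3.trans h4)
        have h5 : (L / 6) ^ 3 / 6 = L ^ 2 * (L / 1296) := by ring
        rw [h5]
        have h6 : 1 ≤ L / 1296 := by linarith
        nlinarith [mul_le_mul_of_nonneg_left h6 (sq_nonneg L)]
      have h7 : Real.exp (2 * a / 3) * L ^ 2 ≤ w := by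
        rw [← h1]
        exact mul_le_mul_of_nonneg_left h2 (Real.exp_pos _).le
      have h8 : Real.exp (2 * a / 3) ≤ w / L ^ 2 := by
        rw [le_div_iff₀ (by positivity)]
        exact h7
      calc 3 * Real.exp (2 * a / 3) ≤ 3 * (w / L ^ 2) :=
            mul_le_mul_of_nonneg_left h8 (by norm_num)
        _ = 3 / L ^ 2 * w := by ring

/-- the degrees in the types -/
theorem par_log {e : ℝ} {D m w : ℕ} {L x Y : ℝ} (he0 : 0 < e) (he1 : e ≤ 1)
    (h : Par e D m w L x Y) : L / 2 ≤ Real.log w ∧ Real.log w ≤ L ∧ 0 < Y ∧ (w : ℝ) ≤ 2 * Y ∧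
      (1 : ℝ) ≤ m ∧ 0 < (D : ℝ) ∧ (m : ℝ) ≤ D / L := by
  obtain ⟨hL, hL4, hm1, hm2, hm3, h96, hx, hx1, hY, hY1, hw⟩ := h
  have hL0 : 0 < L := by linarith
  have hm : (1 : ℝ) ≤ m := by
    refine le_trans ?_ hm1
    have : 1 ≤ 8 / e := by rw [le_div_iff₀ he0]; linarith
    nlinarith
  have hY0 : 0 < Y := by
    by_contra hcon
    push Not at hcon
    have : e * Y ≤ 0 := mul_nonpos_of_nonneg_of_nonpos he0.le hcon
    linarith
  have hD0 : (0 : ℝ) < D := by rw [← hY]; positivity
  have hexpL : Real.exp L = D := by rw [hL]; exact Real.exp_log hD0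
  have hx0 : 0 < x := by rw [hx]; positivity
  have hwY : (w : ℝ) ≤ (1 + x) * Y := by rw [hw]; exact Nat.floor_le (by positivity)
  have hw2 : (w : ℝ) ≤ 2 * Y := by nlinarith
  have hYw : Y ≤ w + 1 := by
    have h9 : (1 + x) * Y ≤ w + 1 := by rw [hw]; exact (Nat.lt_floor_add_one _).le
    have h10 : 0 < x * Y := by positivity
    linarith
  -- `2 * exp (L / 2) ≤ Y`
  have hYL : 2 * Real.exp (L / 2) ≤ Y := by
    have h1 : (L / 2) ^ 3 / 6 ≤ Real.exp (L / 2) := by
      have := Real.pow_div_factorial_le_exp (L / 2) (by linarith) 3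
      norm_num [Nat.factorial] at this
      exact this
    have h2 : Real.exp (L / 2) * Real.exp (L / 2) = D := by
      rw [← hexpL, ← Real.exp_add]; congr 1; ring
    have h3 : 2 * (m : ℝ) * (2 * Real.exp (L / 2)) ≤ 2 * m * Y := by
      rw [hY, ← h2]
      have h4 : 2 * (m : ℝ) * 2 ≤ Real.exp (L / 2) := by
        refine le_trans ?_ h1
        have h5 : (L / 2) ^ 3 / 6 = L ^ 2 * (L / 48) := by ring
        rw [h5]
        have h6 : 1 ≤ L / 48 := by linarith
        nlinarith [mul_le_mul_of_nonneg_left h6 (sq_nonneg L)]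
      have h7 := mul_le_mul_of_nonneg_right h4 (Real.exp_pos (L / 2)).le
      linarith
    exact le_of_mul_le_mul_left h3 (by linarith)
  have hexp1 : 1 ≤ Real.exp (L / 2) := Real.one_le_exp (by linarith)
  have hwe : Real.exp (L / 2) ≤ w := by linarith
  have hw0 : (0 : ℝ) < w := lt_of_lt_of_le (Real.exp_pos _) hwe
  refine ⟨?_, ?_, hY0, hw2, hm, hD0, ?_⟩
  · rw [Real.le_log_iff_exp_le hw0]; exact hwe
  · rw [Real.log_le_iff_le_exp hw0, hexpL]
    refine hw2.trans ?_
    rw [← hY]
    nlinarith
  · rw [le_div_iff₀ hL0]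
    refine le_trans ?_ h96
    have h1 : 1 * 1 ≤ L * (m : ℝ) := mul_le_mul (by linarith) hm (by norm_num) hL0.le
    have h2 : (m : ℝ) * L * 1 ≤ m * L * (96 * (L * m)) := by
      apply mul_le_mul_of_nonneg_left _ (by positivity)
      linarith
    linarith [h2, show (m : ℝ) * L * (96 * (L * m)) = 96 * L ^ 2 * (m : ℝ) ^ 2 by ring]

theorem main_clique : ∃ C : ℝ, ∀ D s p : ℕ, C ≤ D → 2 ≤ s →
    C * phi s (Real.log D) * D ≤ p → ∀ (V : Type) [Fintype V] (G : SimpleGraph V)
      [DecidableRel G.Adj], (∀ v, G.degree v ≤ D) →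
      (∀ K : Finset V, G.IsClique (K : Set V) → K.card ≤ s) → TotLab G p (D + 2 * p - 1) := by
  obtain ⟨D₀, hD₀⟩ := main_gen 1 one_pos le_rfl
  refine ⟨max 2000 D₀, ?_⟩
  intro D s p hCD hs hp V _ G _ hdeg hcl
  have hC : (2000 : ℝ) ≤ max 2000 (D₀ : ℝ) := le_max_left _ _
  have hDD : D₀ ≤ D := by
    have : (D₀ : ℝ) ≤ D := (le_max_right _ _).trans hCD
    exact_mod_cast this
  obtain ⟨m, w, L, x, Y, hpar, hmain⟩ := hD₀ D hDD
  obtain ⟨hw1, hw2, hY0, hwY, hm, hD0, hmD⟩ := par_log one_pos le_rfl hpar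
  obtain ⟨hL, hL4, hm1, hm2, hm3, h96, hx, hx1, hY, hY1, hw⟩ := hpar
  rw [← hL] at hp
  have hL0 : 0 < L := by linarith
  have hph := phi_lower hs hL4
  have hph0 : 0 < phi s L := lt_of_lt_of_le (by positivity) hph
  have hp2 : 2000 * phi s L * D ≤ p := by
    refine le_trans ?_ hp
    apply mul_le_mul_of_nonneg_right _ hD0.le
    exact mul_le_mul_of_nonneg_right hC hph0.le
  by_cases hsmall : phi s L ≤ 1 / 1000
  · obtain ⟨k, hk⟩ : ∃ k : ℕ, k = ⌈(35 * phi s L + 3 / L ^ 2) * w⌉₊ := ⟨_, rfl⟩
    have hw0 : (0 : ℝ) < w := by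
      rcases Nat.eq_zero_or_pos w with h | h
      · rw [h] at hw1
        simp at hw1
        linarith
      · exact_mod_cast h
    have hco : 0 < (35 * phi s L + 3 / L ^ 2) * w := by positivity
    have hk1 : 1 ≤ k := by rw [hk]; exact Nat.one_le_iff_ne_zero.2 (by
      rw [Ne, Nat.ceil_eq_zero]; linarith)
    have hk2 : (35 * phi s L + 3 / L ^ 2) * w ≤ k := by rw [hk]; exact Nat.le_ceil _
    have hk3 : (k : ℝ) ≤ (35 * phi s L + 3 / L ^ 2) * w + 1 := by
      rw [hk]; exact (Nat.ceil_lt_add_one hco.le).le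
    have hx8 : x ≤ 1 / 10 ^ 8 := by
      rw [hx]
      apply div_le_div_of_nonneg_left (by norm_num) (by norm_num)
      nlinarith
    have hx0 : 0 < x := by rw [hx]; positivity
    have hwY2 : (w : ℝ) ≤ (1 + x) * Y := by rw [hw]; exact Nat.floor_le (by positivity)
    have hL2 : 3 / L ^ 2 ≤ 3 / 10 ^ 8 := by
      apply div_le_div_of_nonneg_left (by norm_num) (by norm_num)
      nlinarith
    have hL3 : 3 / L ^ 2 ≤ 1 / L * (3 / 10 ^ 4) := by
      rw [div_mul_div_comm, one_mul, div_le_div_iff₀ (by positivity) (by positivity)]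
      nlinarith
    have hkY : (k : ℝ) ≤ Y / 16 := by
      have h1 : (35 * phi s L + 3 / L ^ 2) * w ≤ (36 / 1000) * (2 * Y) * (1 / 2 + 1 / 10 ^ 3) := by
        have h2 : 35 * phi s L + 3 / L ^ 2 ≤ 36 / 1000 := by linarith
        calc (35 * phi s L + 3 / L ^ 2) * w ≤ (36 / 1000) * ((1 + x) * Y) :=
              mul_le_mul h2 hwY2 hw0.le (by norm_num)
          _ ≤ _ := by nlinarith
      linarith
    refine hmain V G k p hdeg hk1 hkY ?_ ?_
    · intro P hP
      apply colOn_ind
      refine col_clique (G.induce P) w s k hs hL4 hw1 hw2 hsmall (fun v => ?_) ?_ hk2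
      · refine le_trans (le_of_eq ?_) (deg_ind G P w hP v)
        congr
      intro K hK
      have h1 := hcl (K.map (Function.Embedding.subtype (fun u => u ∈ P))) (by
        intro a ha b hb hab
        rw [Finset.mem_coe, Finset.mem_map] at ha hb
        obtain ⟨a', ha', rfl⟩ := ha
        obtain ⟨b', hb', rfl⟩ := hb
        have := hK (Finset.mem_coe.2 ha') (Finset.mem_coe.2 hb') (fun h => hab (by rw [h]))
        simpa using this)
      rwa [Finset.card_map] at h1
    · refine le_trans ?_ hp2
      have hDL : 1 / L * D = D / L := by ring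
      have h3 : D / L ≤ phi s L * D := by
        rw [← hDL]; exact mul_le_mul_of_nonneg_right hph hD0.le
      have h4 : (m : ℝ) * k ≤ (35 * phi s L + 3 / L ^ 2) * D + D / L := by
        have h5 : (m : ℝ) * k ≤ m * ((35 * phi s L + 3 / L ^ 2) * (2 * Y) + 1) := by
          apply mul_le_mul_of_nonneg_left _ (by linarith)
          refine hk3.trans ?_
          have := mul_le_mul_of_nonneg_left hwY (show 0 ≤ 35 * phi s L + 3 / L ^ 2 by positivity)
          linarith
        have h6 : m * ((35 * phi s L + 3 / L ^ 2) * (2 * Y) + 1) =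
            (35 * phi s L + 3 / L ^ 2) * (2 * m * Y) + m := by ring
        rw [h6, hY] at h5
        linarith
      have h7 : 3 / L ^ 2 * D ≤ phi s L * D := by
        apply mul_le_mul_of_nonneg_right _ hD0.le
        refine hL3.trans ?_
        have : 0 < 1 / L := by positivity
        linarith
      have h8 : (35 * phi s L + 3 / L ^ 2) * D = 35 * (phi s L * D) + 3 / L ^ 2 * D := by ring
      have h9 : 0 < phi s L * D := by positivity
      rw [h8] at h4
      have h10 : 2000 * phi s L * D = 2000 * (phi s L * D) := by ring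
      rw [h10]
      linarith
  · push Not at hsmall
    apply large_p G D p hdeg
    have h1 : (2 : ℝ) * D ≤ 2000 * phi s L * D := by
      apply mul_le_mul_of_nonneg_right _ hD0.le
      linarith
    have h2 : (1 : ℝ) ≤ D := by linarith
    have h3 : (D : ℝ) + 1 ≤ p := by linarith
    exact_mod_cast h3

end Pool.Agent.Q149.HY
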