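import Mathlib
import Pool.Agent.Q149.HY.E

set_option autoImplicit false

/-!
# (p,1)-total labellings of graphs with sparse neighbourhoods
-/

namespace Pool.Agent.Q149.HY

open Finset Classical Pool.Agent.TH855 Pool.Agent.Helper311.Glue Pool.Agent.TH104.HY

set_option linter.unusedSectionVars false

section

variable {V : Type} [Fintype V] {G : SimpleGraph V}

/-- local occupancy for sets which span few edges -/
theorem occ_few (N : Finset V) (l : V → ℝ) (hl : ∀ u, 0 ≤ l u) {lam T F δ : ℝ}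
    (hl1 : ∀ u, l u ≤ lam) (hT : 1 ≤ T) (hδ0 : 0 < δ) (hδ : δ ≤ 1 / 4) (hlam : lam ≤ δ)
    (hF : lam ^ 2 * F ≤ δ)
    (hN : (((N ×ˢ N).filter (fun a => G.Adj a.1 a.2)).card : ℝ) ≤ F) :
    Zf G N l ≤ Real.exp T + 1 / ((1 - 2 * δ) * T) * Mf G N l := by
  have hM := mf_nonneg (G := G) N l hl
  have hc : 0 < (1 - 2 * δ) * T := mul_pos (by linarith) (by linarith)
  by_cases hΛ : ∑ u ∈ N, l u ≤ T
  · have h1 := (zf_le_exp (G := G) N l hl).trans (Real.exp_le_exp.2 hΛ)
    have : 0 ≤ 1 / ((1 - 2 * δ) * T) * Mf G N l := by positivity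
    linarith
  · push Not at hΛ
    set Λ := ∑ u ∈ N, l u with hΛd
    have hΛ0 : 0 < Λ := by linarith
    obtain ⟨s, hs⟩ : ∃ s : ℝ, s = T / Λ := ⟨_, rfl⟩
    have hs0 : 0 ≤ s := by rw [hs]; positivity
    have hs1 : s ≤ 1 := by rw [hs, div_le_one hΛ0]; exact hΛ.le
    have hm0 : ∀ u, 0 ≤ s * l u := fun u => mul_nonneg hs0 (hl u)
    have hm1 : ∀ u, s * l u ≤ lam := fun u =>
      (mul_le_of_le_one_left (hl u) hs1).trans (hl1 u)
    have h1 := mf_lower (G := G) N (fun u => s * l u) hm0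
    have h2 := scale (G := G) N l hl hs0 hs1
    set m : V → ℝ := fun u => s * l u with hm
    have hZm : 0 < Zf G N m := zf_pos N m hm0
    have hZ : 0 < Zf G N l := zf_pos N l hl
    have hsum : ∑ u ∈ N, m u = T := by
      rw [hm, ← Finset.mul_sum, ← hΛd, hs]; field_simp
    have hlam0 : 0 ≤ lam := by
      by_contra hcon
      push Not at hcon
      have : ∑ u ∈ N, m u ≤ 0 := Finset.sum_nonpos (fun u _ => (hm1 u).trans hcon.le)
      linarith
    have h3 : ∑ u ∈ N, m u * Dg G N m u ≤ δ := by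
      have h4 : ∑ u ∈ N, m u * Dg G N m u =
          ∑ a ∈ (N ×ˢ N).filter (fun a => G.Adj a.1 a.2), m a.1 * m a.2 := by
        rw [Finset.sum_filter, Finset.sum_product]
        refine Finset.sum_congr rfl (fun u _ => ?_)
        rw [Dg, Finset.sum_filter, Finset.mul_sum]
        refine Finset.sum_congr rfl (fun w _ => ?_)
        split_ifs <;> simp
      rw [h4]
      refine (Finset.sum_le_sum (g := fun _ => lam ^ 2) (fun a _ => ?_)).trans ?_
      · rw [pow_two]
        exact mul_le_mul (hm1 _) (hm1 _) (hm0 _) hlam0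
      · rw [Finset.sum_const, nsmul_eq_mul, mul_comm]
        exact (mul_le_mul_of_nonneg_left hN (sq_nonneg _)).trans hF
    have h5 : (1 - 2 * δ) * T ≤ ∑ u ∈ N, m u * (1 - m u - Dg G N m u) := by
      have h6 : ∑ u ∈ N, m u * (1 - m u - Dg G N m u) =
          ∑ u ∈ N, m u - ∑ u ∈ N, m u * m u - ∑ u ∈ N, m u * Dg G N m u := by
        rw [← Finset.sum_sub_distrib, ← Finset.sum_sub_distrib]
        exact Finset.sum_congr rfl (fun u _ => by ring)
      have h7 : ∑ u ∈ N, m u * m u ≤ δ * T := by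
        rw [← hsum, Finset.mul_sum]
        refine Finset.sum_le_sum (fun u _ => ?_)
        exact mul_le_mul_of_nonneg_right ((hm1 u).trans hlam) (hm0 u)
      have h8 : δ * 1 ≤ δ * T := mul_le_mul_of_nonneg_left hT hδ0.le
      rw [h6, hsum]
      linarith
    have h9 : Zf G N m * ((1 - 2 * δ) * T) ≤ Mf G N m :=
      (mul_le_mul_of_nonneg_left h5 hZm.le).trans h1
    have h10 : (1 - 2 * δ) * T * Zf G N l ≤ Mf G N l := by
      have h11 : Zf G N m * ((1 - 2 * δ) * T * Zf G N l) ≤ Zf G N m * Mf G N l := by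
        calc Zf G N m * ((1 - 2 * δ) * T * Zf G N l) =
              (Zf G N m * ((1 - 2 * δ) * T)) * Zf G N l := by ring
          _ ≤ Mf G N m * Zf G N l := mul_le_mul_of_nonneg_right h9 hZ.le
          _ ≤ Mf G N l * Zf G N m := h2
          _ = Zf G N m * Mf G N l := by ring
      exact le_of_mul_le_mul_left h11 hZm
    have h12 : Zf G N l ≤ 1 / ((1 - 2 * δ) * T) * Mf G N l := by
      rw [one_div, inv_mul_eq_div, le_div_iff₀ hc]
      linarith
    have := Real.exp_pos T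
    linarith

/-- colourings of graphs with sparse neighbourhoods; `g` is the logarithm of the sparsity -/
theorem col_few (G : SimpleGraph V) (w k : ℕ) {L g δ : ℝ} (hδ0 : 0 < δ) (hδ : δ ≤ 1 / 16)
    (hg : 8 ≤ g) (hgL : g ≤ 2 * (1 - δ) * L) (hL : 0 < L)
    (hw : 3 * g ^ 2 * Real.exp ((1 - δ) * g / 2 + L - g / 2) ≤ δ ^ 3 * w)
    (hdeg : ∀ v, (univ.filter (fun u => G.Adj v u)).card ≤ w)
    (hF : ∀ v, ((univ.filter (fun a : V × V =>
      G.Adj v a.1 ∧ G.Adj v a.2 ∧ G.Adj a.1 a.2)).card : ℝ) ≤ Real.exp (2 * L - g))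
    (hk : (2 + 10 * δ) / g * w ≤ k) : G.Colorable k := by
  have hg0 : 0 < g := by linarith
  obtain ⟨lam, hlam⟩ : ∃ lam : ℝ, lam = δ * Real.exp (g / 2 - L) := ⟨_, rfl⟩
  have hlam0 : 0 < lam := by rw [hlam]; positivity
  have hlamδ : lam ≤ δ := by
    rw [hlam]
    have h1 : Real.exp (g / 2 - L) ≤ 1 := by
      rw [Real.exp_le_one_iff]
      have : 0 < δ * L := by positivity
      linarith
    calc δ * Real.exp (g / 2 - L) ≤ δ * 1 := mul_le_mul_of_nonneg_left h1 hδ0.le
      _ = δ := mul_one _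
  have hlam1 : lam ≤ 1 / 8 := by linarith
  obtain ⟨T, hT⟩ : ∃ T : ℝ, T = (1 - δ) * g / 2 := ⟨_, rfl⟩
  have hT1 : 1 ≤ T := by
    rw [hT]
    have : (7 / 8) * 8 ≤ (1 - δ) * g := mul_le_mul (by linarith) hg (by norm_num) (by linarith)
    linarith
  obtain ⟨s0, hs0⟩ : ∃ s0 : ℕ, s0 = ⌈1 / lam⌉₊ + 1 := ⟨_, rfl⟩
  have hinv : 8 ≤ 1 / lam := by rw [le_div_iff₀ hlam0]; linarith
  have hs0a : 1 / lam ≤ (s0 : ℝ) - 1 := by
    rw [hs0]; push_cast
    have := Nat.le_ceil (1 / lam)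
    linarith
  have hs0b : (s0 : ℝ) ≤ 3 * (1 / lam) := by
    rw [hs0]; push_cast
    have := Nat.ceil_lt_add_one (show 0 ≤ 1 / lam by positivity)
    linarith
  have hs02 : 2 ≤ s0 := by
    have : (2 : ℝ) ≤ s0 := by linarith
    exact_mod_cast this
  have hs0c : 1 / ((s0 : ℝ) - 1) ≤ lam := by
    rw [div_le_iff₀ (by linarith)]
    have := mul_le_mul_of_nonneg_left hs0a hlam0.le
    rwa [mul_one_div_cancel hlam0.ne'] at this
  obtain ⟨ℓ, hℓ⟩ : ∃ ℓ : ℝ, ℓ = 3 * g / (lam * δ) := ⟨_, rfl⟩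
  have hℓ0 : 0 < ℓ := by rw [hℓ]; positivity
  have hc : 0 < (1 - 2 * δ) * T := mul_pos (by linarith) (by linarith)
  refine colorable_of_occ (s0 := s0) hs02 w (β := Real.exp T) (γ := 1 / ((1 - 2 * δ) * T))
    (ℓ := ℓ) (Real.exp_pos _) (by positivity) hℓ0 hdeg ?_ ?_
  · intro v N hN l hl hl1
    refine occ_few (F := Real.exp (2 * L - g)) N l hl (fun u => (hl1 u).trans hs0c) hT1 hδ0
      (by linarith) hlamδ ?_ ?_
    · have h1 : lam ^ 2 * Real.exp (2 * L - g) = δ ^ 2 := by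
        rw [hlam, mul_pow, ← Real.exp_nat_mul, mul_assoc, ← Real.exp_add]
        have : ((2 : ℕ) : ℝ) * (g / 2 - L) + (2 * L - g) = 0 := by push_cast; ring
        rw [this, Real.exp_zero, mul_one]
      rw [h1]
      nlinarith
    · refine le_trans ?_ (hF v)
      refine Nat.cast_le.2 (Finset.card_le_card ?_)
      intro a ha
      rw [Finset.mem_filter, Finset.mem_product] at ha
      rw [Finset.mem_filter]
      exact ⟨Finset.mem_univ _, hN _ ha.1.1, hN _ ha.1.2, ha.2⟩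
  · have hw0 : (0 : ℝ) ≤ w := by positivity
    have h1 : Real.exp T * ℓ ≤ δ / g * w := by
      have h2 : Real.exp T * ℓ = 3 * g ^ 2 * Real.exp ((1 - δ) * g / 2 + L - g / 2) /
          (g * δ ^ 2) := by
        have h3 : Real.exp ((1 - δ) * g / 2 + L - g / 2) = Real.exp T / Real.exp (g / 2 - L) := by
          rw [← Real.exp_sub, hT]; congr 1; ring
        rw [hℓ, hlam, h3]
        have := (Real.exp_pos (g / 2 - L)).ne'
        field_simp
      rw [h2, div_le_iff₀ (by positivity)]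
      refine hw.trans (le_of_eq ?_)
      field_simp
    have h4 : (w : ℝ) * s0 / ℓ ≤ δ / g * w := by
      rw [div_le_iff₀ hℓ0, hℓ]
      have h5 : δ / g * w * (3 * g / (lam * δ)) = w * (3 * (1 / lam)) := by field_simp
      rw [h5]
      exact mul_le_mul_of_nonneg_left hs0b hw0
    have h6 : 1 / ((1 - 2 * δ) * T) ≤ (2 + 8 * δ) / g := by
      rw [div_le_div_iff₀ hc hg0, hT]
      have h7 : 1 ≤ (1 + 4 * δ) * ((1 - 2 * δ) * (1 - δ)) := by
        have h71 : (1 + 4 * δ) * ((1 - 2 * δ) * (1 - δ)) - 1 =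
            δ * (1 - 10 * δ) + 8 * δ ^ 3 := by ring
        have h72 : 0 ≤ δ * (1 - 10 * δ) := mul_nonneg hδ0.le (by linarith)
        have h73 : 0 ≤ 8 * δ ^ 3 := by positivity
        linarith
      have h8 := mul_le_mul_of_nonneg_right h7 hg0.le
      linarith
    have h9 := mul_le_mul_of_nonneg_right h6 hw0
    have h10 : (2 + 10 * δ) / g * w = (2 + 8 * δ) / g * w + δ / g * w + δ / g * w := by
      field_simp; ring
    linarith

end

end Pool.Agent.Q149.HY
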