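import Mathlib
import Pool.Agent.Q149.HY.F

set_option autoImplicit false

/-!
# (p,1)-total labellings of graphs with sparse neighbourhoods
-/

namespace Pool.Agent.Q149.HY

open Finset Classical Pool.Agent.TH855 Pool.Agent.Helper311.Glue Pool.Agent.TH104.HY

/-- the pairs of adjacent neighbours in an induced subgraph -/
theorem pairs_ind {V : Type} [Fintype V] (G : SimpleGraph V) (P : Set V) (v : P) :
    (univ.filter (fun a : P × P => (G.induce P).Adj v a.1 ∧ (G.induce P).Adj v a.2 ∧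
      (G.induce P).Adj a.1 a.2)).card ≤
    (univ.filter (fun a : V × V => G.Adj v.1 a.1 ∧ G.Adj v.1 a.2 ∧ G.Adj a.1 a.2)).card := by
  refine Finset.card_le_card_of_injOn (fun a => ((a.1 : V), (a.2 : V))) ?_ ?_
  · intro a ha
    rw [Finset.mem_coe, Finset.mem_filter] at ha
    rw [Finset.mem_coe, Finset.mem_filter]
    exact ⟨Finset.mem_univ _, by simpa using ha.2⟩
  · intro a _ b _ h
    rw [Prod.mk.injEq] at h
    exact Prod.ext (Subtype.ext h.1) (Subtype.ext h.2)

lemma num_few {δ ε L g lf D m x Y w k p : ℝ} (hδ0 : 0 < δ) (hδ : δ ≤ 1 / 16) (hδε : δ ≤ ε / 20)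
    (hL : 1 / δ ≤ L) (hL4 : 10 ^ 4 ≤ L) (hm : 1 ≤ m) (h96 : 96 * L ^ 2 * m ^ 2 ≤ D)
    (hx : x = 1 / L ^ 2) (hY : 2 * m * Y = D) (hY0 : 0 < Y) (hw : w ≤ (1 + x) * Y)
    (hk : k ≤ (2 + 10 * δ) / g * w + 1) (hg : 200 ≤ g) (hgL : g ≤ 2 * L)
    (hlf : (1 - δ) * lf ≤ g) (hlf0 : 0 < lf) (hp : (1 + ε) * (D / lf) ≤ p) :
    m * k + δ * (D / L) ≤ p := by
  have hL0 : 0 < L := by linarith
  have hg0 : 0 < g := by linarith
  have hD0 : 0 < D := by rw [← hY]; positivity
  have hδL : 1 ≤ L * δ := by rwa [div_le_iff₀ hδ0] at hL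
  have hx1 : x ≤ δ := by
    rw [hx, div_le_iff₀ (by positivity)]
    nlinarith
  have h1 : m * k ≤ (1 + 5 * δ) * (1 + δ) * (D / g) + m := by
    have h2 : m * k ≤ m * ((2 + 10 * δ) / g * ((1 + δ) * Y) + 1) := by
      apply mul_le_mul_of_nonneg_left _ (by linarith)
      refine hk.trans ?_
      have h3 : w ≤ (1 + δ) * Y := hw.trans (mul_le_mul_of_nonneg_right (by linarith) hY0.le)
      have h4 := mul_le_mul_of_nonneg_left h3 (show 0 ≤ (2 + 10 * δ) / g by positivity)
      linarith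
    refine h2.trans (le_of_eq ?_)
    rw [← hY]
    field_simp
    ring
  have h5 : m ≤ δ * (D / g) := by
    have h6 : m ≤ D / (96 * L ^ 2) := by
      rw [le_div_iff₀ (by positivity)]
      refine le_trans ?_ h96
      have : m * 1 ≤ m * m := mul_le_mul_of_nonneg_left hm (by linarith)
      nlinarith
    refine h6.trans ?_
    rw [mul_div_assoc', div_le_div_iff₀ (by positivity) hg0]
    have h7 : g ≤ δ * (96 * L ^ 2) := by
      have h8 : 1 * L ≤ L * δ * L := mul_le_mul_of_nonneg_right hδL hL0.le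
      nlinarith
    have := mul_le_mul_of_nonneg_left h7 hD0.le
    linarith
  have h9 : δ * (D / L) ≤ 2 * δ * (D / g) := by
    have h10 : D / L ≤ 2 * (D / g) := by
      rw [mul_div_assoc', div_le_div_iff₀ hL0 hg0]
      have := mul_le_mul_of_nonneg_left hgL hD0.le
      linarith
    have := mul_le_mul_of_nonneg_left h10 hδ0.le
    linarith
  have hDg : 0 < D / g := by positivity
  have h11 : D / g ≤ (1 + 2 * δ) * (D / lf) := by
    rw [mul_div_assoc', div_le_div_iff₀ hg0 hlf0]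
    have h12 : 1 ≤ (1 + 2 * δ) * (1 - δ) := by nlinarith
    have h13 : lf ≤ (1 + 2 * δ) * g := by
      have h14 := mul_le_mul_of_nonneg_left hlf (show 0 ≤ 1 + 2 * δ by linarith)
      have h15 := mul_le_mul_of_nonneg_right h12 hlf0.le
      linarith
    have := mul_le_mul_of_nonneg_left h13 hD0.le
    linarith
  have h16 : m * k + δ * (D / L) ≤ (1 + 10 * δ) * (D / g) := by
    have h17 : (1 + 5 * δ) * (1 + δ) + 3 * δ ≤ 1 + 10 * δ := by nlinarith
    have h18 := mul_le_mul_of_nonneg_right h17 hDg.le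
    linarith
  have hDlf : 0 < D / lf := by positivity
  have h19 : (1 + 10 * δ) * (D / g) ≤ (1 + 10 * δ) * ((1 + 2 * δ) * (D / lf)) :=
    mul_le_mul_of_nonneg_left h11 (by linarith)
  have h20 : (1 + 10 * δ) * (1 + 2 * δ) ≤ 1 + ε := by nlinarith
  have h21 := mul_le_mul_of_nonneg_right h20 hDlf.le
  linarith

theorem main_few (ε : ℝ) (hε : 0 < ε) : ∃ K : ℕ, ∀ (D p : ℕ) (f : ℝ), K ≤ D →
    (Real.log D) ^ K ≤ f → f ≤ (D : ℝ) ^ 2 → (1 + ε) * (D / Real.log f) ≤ p →
    ∀ (V : Type) [Fintype V] (G : SimpleGraph V) [DecidableRel G.Adj], (∀ v, G.degree v ≤ D) →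
      (∀ v, ((univ.filter (fun a : V × V =>
        G.Adj v a.1 ∧ G.Adj v a.2 ∧ G.Adj a.1 a.2)).card : ℝ) ≤ (D : ℝ) ^ 2 / f) →
      TotLab G p (D + 2 * p - 1) := by
  obtain ⟨δ, hδd⟩ : ∃ δ : ℝ, δ = min (ε / 20) (1 / 16) := ⟨_, rfl⟩
  have hδ0 : 0 < δ := by rw [hδd]; exact lt_min (by positivity) (by norm_num)
  have hδε : δ ≤ ε / 20 := by rw [hδd]; exact min_le_left _ _
  have hδ : δ ≤ 1 / 16 := by rw [hδd]; exact min_le_right _ _
  obtain ⟨D₀, hD₀⟩ := main_gen δ hδ0 (by linarith)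
  -- growth conditions
  have t1 := (isLittleO_pow_exp_pos_mul_atTop 2 (show 0 < δ / 4 by positivity)).bound
    (show (0 : ℝ) < δ ^ 4 / 108 by positivity)
  obtain ⟨g₀, hg₀⟩ := Filter.eventually_atTop.1 t1
  obtain ⟨K₁, hK₁⟩ : ∃ K₁ : ℕ, 4 / δ ≤ K₁ := exists_nat_ge _
  have hlt : Filter.Tendsto (fun n : ℕ => Real.log (n : ℝ)) Filter.atTop Filter.atTop :=
    Real.tendsto_log_atTop.comp tendsto_natCast_atTop_atTop
  have hllt : Filter.Tendsto (fun n : ℕ => Real.log (Real.log (n : ℝ))) Filter.atTop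
      Filter.atTop := Real.tendsto_log_atTop.comp hlt
  have t2 := Real.isLittleO_log_id_atTop.bound (show (0 : ℝ) < 1 / (K₁ + 1) by positivity)
  obtain ⟨N, hN⟩ := Filter.eventually_atTop.1 ((hlt.eventually (t2.and
    (Filter.eventually_ge_atTop (max (1 / δ) (max 200 g₀))))).and
      (hllt.eventually_ge_atTop (max 200 g₀)))
  refine ⟨max (max D₀ N) (K₁ + 1), ?_⟩
  intro D p f hKD hf1 hf2 hp V _ G _ hdeg hpairs
  have hDD : D₀ ≤ D := ((le_max_left _ _).trans (le_max_left _ _)).trans hKD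
  have hDN : N ≤ D := ((le_max_right _ _).trans (le_max_left _ _)).trans hKD
  obtain ⟨⟨hLK, hLb⟩, hLL⟩ := hN D hDN
  obtain ⟨m, w, L, x, Y, hpar, hmain⟩ := hD₀ D hDD
  obtain ⟨hw1, hw2, hY0, hwY, hm, hD0, hmD⟩ := par_log hδ0 (by linarith) hpar
  obtain ⟨hL, hL4, hm1, hm2, hm3, h96, hx, hx1, hY, hY1, hw⟩ := hpar
  rw [← hL] at hLK hLb hLL hf1
  have hL0 : 0 < L := by linarith
  have hLδ : 1 / δ ≤ L := (le_max_left _ _).trans hLb
  have hLg : max 200 g₀ ≤ L := (le_max_right _ _).trans hLb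
  have hlogL0 : 200 ≤ Real.log L := (le_max_left _ _).trans hLL
  have hexpL : Real.exp L = D := by rw [hL]; exact Real.exp_log hD0
  have hKL : (K₁ + 1 : ℝ) * Real.log L ≤ L := by
    have h1 : Real.log L ≤ 1 / (K₁ + 1) * L := by
      simpa [abs_of_nonneg hL0.le, abs_of_nonneg (show 0 ≤ Real.log L by linarith)] using hLK
    have h2 := mul_le_mul_of_nonneg_left h1 (show (0 : ℝ) ≤ K₁ + 1 by positivity)
    have h3 : (K₁ + 1 : ℝ) * (1 / (K₁ + 1) * L) = L := by field_simp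
    linarith
  have hf0 : 0 < f := lt_of_lt_of_le (by positivity) hf1
  have hlf1 : (K₁ + 1 : ℝ) * Real.log L ≤ Real.log f := by
    have h1 : (((K₁ + 1 : ℕ) : ℝ)) * Real.log L = Real.log (L ^ (K₁ + 1)) := by
      rw [Real.log_pow]
    have h2 : L ^ (K₁ + 1) ≤ f := by
      refine le_trans (pow_le_pow_right₀ (by linarith) (le_max_right _ _)) hf1
    have h3 := Real.log_le_log (by positivity) h2
    rw [← h1] at h3
    push_cast at h3
    exact h3
  have hlf2 : Real.log f ≤ 2 * L := by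
    rw [Real.log_le_iff_le_exp hf0]
    refine hf2.trans (le_of_eq ?_)
    rw [← hexpL, ← Real.exp_nat_mul]
    push_cast
    rfl
  obtain ⟨g, hg⟩ : ∃ g : ℝ, g = min (Real.log f) (2 * (1 - δ) * L) := ⟨_, rfl⟩
  have hg1 : g ≤ Real.log f := by rw [hg]; exact min_le_left _ _
  have hg2 : g ≤ 2 * (1 - δ) * L := by rw [hg]; exact min_le_right _ _
  have hg3 : (K₁ + 1 : ℝ) * Real.log L ≤ g := by
    rw [hg]
    refine le_min hlf1 (hKL.trans ?_)
    nlinarith
  have hK1 : (0 : ℝ) ≤ K₁ := by positivity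
  have hg4 : Real.log L ≤ g := by nlinarith
  have hg200 : 200 ≤ g := by linarith
  have hg0 : 0 < g := by linarith
  have hgg₀ : g₀ ≤ g := ((le_max_right _ _).trans hLL).trans hg4
  have hgl : (1 - δ) * Real.log f ≤ g := by
    rw [hg]
    have h0 : 0 ≤ Real.log f := by linarith
    refine le_min ?_ ?_
    · nlinarith
    · have := mul_le_mul_of_nonneg_left hlf2 (show 0 ≤ 1 - δ by linarith)
      linarith
  have hE1 : L ≤ Real.exp (δ / 4 * g) := by
    have h1 : Real.log L ≤ δ / 4 * g := by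
      have h2 : 4 / δ * Real.log L ≤ g := by
        have : 4 / δ * Real.log L ≤ (K₁ + 1) * Real.log L :=
          mul_le_mul_of_nonneg_right (by linarith) (by linarith)
        linarith
      have h3 := mul_le_mul_of_nonneg_left h2 (show 0 ≤ δ / 4 by positivity)
      have h4 : δ / 4 * (4 / δ * Real.log L) = Real.log L := by field_simp
      linarith
    calc L = Real.exp (Real.log L) := (Real.exp_log hL0).symm
      _ ≤ _ := Real.exp_le_exp.2 h1
  have hE2 : 108 * g ^ 2 ≤ δ ^ 4 * Real.exp (δ / 4 * g) := by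
    have h1 := hg₀ g hgg₀
    have h2 : g ^ 2 ≤ δ ^ 4 / 108 * Real.exp (δ / 4 * g) := by
      simpa [abs_of_nonneg (Real.exp_pos (δ / 4 * g)).le] using h1
    linarith
  have hx0 : 0 < x := by rw [hx]; positivity
  have hwY2 : (w : ℝ) ≤ (1 + x) * Y := by rw [hw]; exact Nat.floor_le (by positivity)
  have hY2 : 2 ≤ Y := by
    have h1 : δ * Y ≤ 1 * Y := mul_le_mul_of_nonneg_right (by linarith) hY0.le
    linarith
  have hYw : Y ≤ 2 * w := by
    have h9 : (1 + x) * Y ≤ w + 1 := by rw [hw]; exact (Nat.lt_floor_add_one _).le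
    have h10 : 0 < x * Y := by positivity
    linarith
  obtain ⟨k, hk⟩ : ∃ k : ℕ, k = ⌈(2 + 10 * δ) / g * w⌉₊ := ⟨_, rfl⟩
  have hw0 : (0 : ℝ) < w := by linarith
  have hco : 0 < (2 + 10 * δ) / g * w := by positivity
  have hk1 : 1 ≤ k := by rw [hk]; exact Nat.one_le_iff_ne_zero.2 (by
    rw [Ne, Nat.ceil_eq_zero]; linarith)
  have hk2 : (2 + 10 * δ) / g * w ≤ k := by rw [hk]; exact Nat.le_ceil _
  have hk3 : (k : ℝ) ≤ (2 + 10 * δ) / g * w + 1 := by
    rw [hk]; exact (Nat.ceil_lt_add_one hco.le).le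
  have hkY : (k : ℝ) ≤ Y / 16 := by
    have h1 : (2 + 10 * δ) / g ≤ 3 / 200 :=
      div_le_div₀ (by norm_num) (by linarith) (by norm_num) hg200
    have h2 : (2 + 10 * δ) / g * w ≤ 3 / 200 * (2 * Y) :=
      mul_le_mul h1 hwY hw0.le (by norm_num)
    have h3 : δ * Y ≤ 1 * Y := mul_le_mul_of_nonneg_right (by linarith) hY0.le
    linarith
  refine hmain V G k p hdeg hk1 hkY ?_ ?_
  · intro P hP
    apply colOn_ind
    refine col_few (G.induce P) w k hδ0 hδ (by linarith) hg2 hL0 ?_ (fun v => ?_) (fun v => ?_) hk2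
    · -- the main growth condition
      have h1 : (1 - δ) * g / 2 + L - g / 2 = L + (-(δ / 4 * g)) + (-(δ / 4 * g)) := by ring
      rw [h1, Real.exp_add, Real.exp_add, Real.exp_neg, hexpL]
      obtain ⟨E, hE⟩ : ∃ E : ℝ, E = Real.exp (δ / 4 * g) := ⟨_, rfl⟩
      rw [← hE] at hE1 hE2 ⊢
      have hE0 : 0 < E := by rw [hE]; exact Real.exp_pos _
      have h2 : 3 * g ^ 2 * (D * E⁻¹ * E⁻¹) = (3 * g ^ 2 * D) / (E * E) := by
        field_simp
      rw [h2, div_le_iff₀ (by positivity), ← hY]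
      have hm9 : (m : ℝ) ≤ 9 / δ * L := by
        refine hm2.trans ?_
        have h3 : 9 / δ * L = 8 / δ * L + 1 / δ * L := by ring
        have h4 : 1 ≤ 1 / δ := by rw [le_div_iff₀ hδ0]; linarith
        have h5 : 1 * 1 ≤ 1 / δ * L := mul_le_mul h4 (by linarith) (by norm_num) (by positivity)
        linarith
      have h6 : 3 * g ^ 2 * (2 * m * Y) ≤ 3 * g ^ 2 * (2 * (9 / δ * L) * (2 * w)) := by
        gcongr
      refine h6.trans ?_
      have h7 : 3 * g ^ 2 * (2 * (9 / δ * L) * (2 * w)) = (108 * g ^ 2) * L * (w / δ) := by ring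
      rw [h7]
      have h8 : (108 * g ^ 2) * L ≤ (δ ^ 4 * E) * E :=
        mul_le_mul hE2 hE1 hL0.le (by positivity)
      have h9 := mul_le_mul_of_nonneg_right h8 (show 0 ≤ (w : ℝ) / δ by positivity)
      refine h9.trans (le_of_eq ?_)
      field_simp
    · refine le_trans (le_of_eq ?_) (deg_ind G P w hP v)
      congr
    · have h1 := hpairs v.1
      have h2 := pairs_ind G P v
      have h3 : (D : ℝ) ^ 2 / f ≤ Real.exp (2 * L - g) := by
        rw [Real.exp_sub, div_le_div_iff₀ hf0 (Real.exp_pos _)]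
        have h4 : Real.exp (2 * L) = (D : ℝ) ^ 2 := by
          rw [← hexpL, ← Real.exp_nat_mul]; push_cast; rfl
        rw [h4]
        refine mul_le_mul_of_nonneg_left ?_ (by positivity)
        rw [← Real.exp_log hf0]
        exact Real.exp_le_exp.2 hg1
      refine le_trans (Nat.cast_le.2 (le_trans (le_of_eq ?_) h2))
        (le_trans (le_of_eq ?_) (h1.trans h3))
      · congr
      · congr
  · exact num_few hδ0 hδ hδε hLδ hL4 hm h96 hx hY hY0 hwY2 hk3 hg200 (by
      have : 0 < δ * L := by positivity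
      linarith) hgl (by linarith) hp

end Pool.Agent.Q149.HY
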