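import Mathlib
import Pool.Agent.Q149.HY.G

set_option autoImplicit false

/-!
# A general principle, and graphs without large cliques
-/

namespace Pool.Agent.Q149.HY

open Finset Classical Pool.Agent.TH855 Pool.Agent.Helper311.Glue Pool.Agent.TH104.HY

/-- a regular bound for the chromatic numbers of a class of graphs gives labellings for `p` a little
more than half the bound -/
theorem principle (𝒞 : ∀ V : Type, SimpleGraph V → Prop)
    (hind : ∀ (V : Type) (G : SimpleGraph V) (P : Set V), 𝒞 V G → 𝒞 P (G.induce P))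
    (b : ℕ → ℝ)
    (hb : ∃ Δ₀ : ℕ, ∀ Δ : ℕ, Δ₀ ≤ Δ → ∀ (V : Type) [Fintype V] (G : SimpleGraph V), 𝒞 V G →
      (∀ v, (univ.filter (fun u => G.Adj v u)).card ≤ Δ) → ∃ n : ℕ, G.Colorable n ∧ (n : ℝ) ≤ b Δ)
    (hreg : ∀ η : ℝ, 0 < η → ∃ D₁ : ℕ, ∀ D y : ℕ, D₁ ≤ D → D / (Real.log D) ^ 2 ≤ (y : ℝ) →
      y ≤ D → b y * D ≤ (1 + η) * b D * y)
    (h0 : ∀ η : ℝ, 0 < η → ∃ D₁ : ℕ, ∀ D : ℕ, D₁ ≤ D → b D ≤ η * D) (ε : ℝ) (hε : 0 < ε) :
    ∃ D₀ : ℕ, ∀ D p : ℕ, D₀ ≤ D → (1 / 2 + ε) * b D + ε * (D / Real.log D) ≤ p →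
      ∀ (V : Type) [Fintype V] (G : SimpleGraph V) [DecidableRel G.Adj], 𝒞 V G →
        (∀ v, G.degree v ≤ D) → TotLab G p (D + 2 * p - 1) := by
  obtain ⟨e, he⟩ : ∃ e : ℝ, e = min (ε / 2) (1 / 2) := ⟨_, rfl⟩
  have he0 : 0 < e := by rw [he]; exact lt_min (by positivity) (by norm_num)
  have heε : e ≤ ε / 2 := by rw [he]; exact min_le_left _ _
  have he1 : e ≤ 1 / 2 := by rw [he]; exact min_le_right _ _
  obtain ⟨Δ₀, hb⟩ := hb
  obtain ⟨D₁, hD₁⟩ := hreg e he0
  obtain ⟨D₂, hD₂⟩ := h0 (1 / 40) (by norm_num)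
  obtain ⟨D₀, hD₀⟩ := main_gen e he0 (by linarith)
  have hlt : Filter.Tendsto (fun n : ℕ => Real.log (n : ℝ)) Filter.atTop Filter.atTop :=
    Real.tendsto_log_atTop.comp tendsto_natCast_atTop_atTop
  obtain ⟨N, hN⟩ := Filter.eventually_atTop.1 (hlt.eventually_ge_atTop
    (max (max (Δ₀ : ℝ) (D₂ : ℝ)) (1 / e)))
  refine ⟨max (max D₀ N) (max D₁ Δ₀), ?_⟩
  intro D p hD hp V _ G _ hG hdeg
  have hDD : D₀ ≤ D := ((le_max_left _ _).trans (le_max_left _ _)).trans hD
  have hDN : N ≤ D := ((le_max_right _ _).trans (le_max_left _ _)).trans hD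
  have hDD₁ : D₁ ≤ D := ((le_max_left _ _).trans (le_max_right _ _)).trans hD
  have hDΔ₀ : Δ₀ ≤ D := ((le_max_right _ _).trans (le_max_right _ _)).trans hD
  have hLN := hN D hDN
  obtain ⟨m, w, L, x, Y, hpar, hmain⟩ := hD₀ D hDD
  obtain ⟨hw1, hw2, hY0, hwY, hm, hD0, hmD⟩ := par_log he0 (by linarith) hpar
  obtain ⟨hL, hL4, hm1, hm2, hm3, h96, hx, hx1, hY, hY1, hw⟩ := hpar
  rw [← hL] at hLN hp
  have hL0 : 0 < L := by linarith
  have hLe : 1 / e ≤ L := (le_max_right _ _).trans hLN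
  have hw0 : (0 : ℝ) < w := by
    rcases Nat.eq_zero_or_pos w with h | h
    · rw [h] at hw1
      simp at hw1
      linarith
    · exact_mod_cast h
  have hwL : L ≤ w := by
    have h1 : Real.exp (L / 2) ≤ w := by
      rw [← Real.exp_log hw0]; exact Real.exp_le_exp.2 hw1
    have h2 : (L / 2) ^ 2 / 2 ≤ Real.exp (L / 2) := by
      have := Real.pow_div_factorial_le_exp (L / 2) (by linarith) 2
      norm_num [Nat.factorial] at this
      exact this
    nlinarith
  have hΔw : Δ₀ ≤ w := by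
    have : (Δ₀ : ℝ) ≤ w := (((le_max_left _ _).trans (le_max_left _ _)).trans hLN).trans hwL
    exact_mod_cast this
  have hD₂w : D₂ ≤ w := by
    have : (D₂ : ℝ) ≤ w := (((le_max_right _ _).trans (le_max_left _ _)).trans hLN).trans hwL
    exact_mod_cast this
  have hx0 : 0 < x := by rw [hx]; positivity
  have hxe : x ≤ e / 10 ^ 4 := by
    rw [hx, div_le_div_iff₀ (by positivity) (by norm_num)]
    have h1 : 1 ≤ L * e := by rwa [div_le_iff₀ he0] at hLe
    nlinarith
  have hwY2 : (w : ℝ) ≤ (1 + x) * Y := by rw [hw]; exact Nat.floor_le (by positivity)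
  have hYe : 100 * L ≤ Y := by
    have : e * Y ≤ 1 * Y := mul_le_mul_of_nonneg_right (by linarith) hY0.le
    linarith
  have hYw : Y ≤ w + 1 := by
    have h9 : (1 + x) * Y ≤ w + 1 := by rw [hw]; exact (Nat.lt_floor_add_one _).le
    have h10 : 0 < x * Y := by positivity
    linarith
  have hwD : w ≤ D := by
    have : (w : ℝ) ≤ D := by
      refine hwY.trans ?_
      rw [← hY]
      nlinarith
    exact_mod_cast this
  have hwlow : (D : ℝ) / L ^ 2 ≤ w := by
    rw [div_le_iff₀ (by positivity), ← hY]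
    have h1 : 2 * (m : ℝ) * Y ≤ 2 * (L ^ 2 / 100) * Y := by gcongr
    have h2 : Y ≤ 2 * w := by linarith
    have h3 : 2 * (L ^ 2 / 100) * Y ≤ 2 * (L ^ 2 / 100) * (2 * w) := by gcongr
    have h4 : 0 ≤ (w : ℝ) * L ^ 2 := by positivity
    linarith
  -- the bound is not negative
  obtain ⟨n₀, -, hn₀⟩ := hb D hDΔ₀ V G hG (fun v => by
    refine le_trans (le_of_eq ?_) (hdeg v)
    rw [← SimpleGraph.card_neighborFinset_eq_degree]
    congr 1
    ext u
    simp)
  have hbD : 0 ≤ b D := le_trans (by positivity) hn₀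
  have hbw : b w ≤ (1 + e) * (1 + x) * b D / (2 * m) := by
    have h1 := hD₁ D w hDD₁ (by rw [← hL]; exact hwlow) hwD
    rw [le_div_iff₀ (by linarith)]
    have h2 : (1 + e) * b D * w ≤ (1 + e) * b D * ((1 + x) * Y) :=
      mul_le_mul_of_nonneg_left hwY2 (by positivity)
    have h3 : (b w * (2 * m)) * Y ≤ ((1 + e) * (1 + x) * b D) * Y := by
      calc (b w * (2 * m)) * Y = b w * (2 * m * Y) := by ring
        _ = b w * D := by rw [hY]
        _ ≤ (1 + e) * b D * w := h1
        _ ≤ (1 + e) * b D * ((1 + x) * Y) := h2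
        _ = ((1 + e) * (1 + x) * b D) * Y := by ring
    exact le_of_mul_le_mul_right h3 hY0
  have hbw2 : b w ≤ Y / 20 := by
    have h1 := hD₂ w hD₂w
    linarith
  obtain ⟨k, hk⟩ : ∃ k : ℕ, k = ⌊b w⌋₊ + 1 := ⟨_, rfl⟩
  have hb0 : 0 ≤ b w := by
    obtain ⟨n, -, hn⟩ := hb w hΔw (∅ : Set V) (G.induce (∅ : Set V)) (hind V G _ hG)
      (fun v => absurd v.2 (Set.notMem_empty _))
    exact le_trans (by positivity) hn
  have hkb : (k : ℝ) ≤ b w + 1 := by
    rw [hk]; push_cast
    have := Nat.floor_le hb0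
    linarith
  refine hmain V G k p hdeg (by omega) (by linarith) ?_ ?_
  · intro P hP
    apply colOn_ind
    obtain ⟨n, hn1, hn2⟩ := hb w hΔw P (G.induce P) (hind V G P hG) (fun v => by
      refine le_trans (le_of_eq ?_) (deg_ind G P w hP v)
      congr)
    refine hn1.mono ?_
    have : n ≤ ⌊b w⌋₊ := Nat.le_floor hn2
    omega
  · have h1 : (m : ℝ) * k ≤ (1 + e) * (1 + x) * b D / 2 + m := by
      have h2 : (m : ℝ) * k ≤ m * (b w + 1) := mul_le_mul_of_nonneg_left hkb (by linarith)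
      have h3 : (m : ℝ) * b w ≤ m * ((1 + e) * (1 + x) * b D / (2 * m)) :=
        mul_le_mul_of_nonneg_left hbw (by linarith)
      have h4 : (m : ℝ) * ((1 + e) * (1 + x) * b D / (2 * m)) = (1 + e) * (1 + x) * b D / 2 := by
        field_simp
      linarith
    have h5 : (m : ℝ) ≤ e * (D / L) := by
      have h6 : (m : ℝ) ≤ D / (96 * L ^ 2) := by
        rw [le_div_iff₀ (by positivity)]
        refine le_trans ?_ h96
        have : (m : ℝ) * 1 ≤ m * m := mul_le_mul_of_nonneg_left hm (by linarith)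
        nlinarith
      refine h6.trans ?_
      rw [mul_div_assoc', div_le_div_iff₀ (by positivity) hL0]
      have h7 : L ≤ e * (96 * L ^ 2) := by
        have h1 : 1 ≤ L * e := by rwa [div_le_iff₀ he0] at hLe
        have h8 : 1 * L ≤ L * e * L := mul_le_mul_of_nonneg_right h1 hL0.le
        have h9 : 0 ≤ e * L ^ 2 := by positivity
        nlinarith
      have := mul_le_mul_of_nonneg_left h7 hD0.le
      linarith
    have h10 : (1 + e) * (1 + x) ≤ 1 + 2 * ε := by
      have : e * x ≤ 1 * x := mul_le_mul_of_nonneg_right (by linarith) hx0.le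
      nlinarith
    have h11 := mul_le_mul_of_nonneg_right h10 hbD
    have h12 : 2 * (e * (D / L)) ≤ ε * (D / L) := by
      have : 0 ≤ (D : ℝ) / L := by positivity
      nlinarith
    linarith

/-- Johansson's theorem with the constant `s`, for graphs with clique number at most `s + 1` -/
theorem johansson (s : ℕ) (hs : 1 ≤ s) (δ : ℝ) (hδ : 0 < δ) : ∃ Δ₀ : ℕ, ∀ Δ : ℕ, Δ₀ ≤ Δ →
    ∀ (V : Type) [Fintype V] (G : SimpleGraph V),
      (∀ K : Finset V, G.IsClique (K : Set V) → K.card ≤ s + 1) →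
      (∀ v, (univ.filter (fun u => G.Adj v u)).card ≤ Δ) →
      ∃ n : ℕ, G.Colorable n ∧
        (n : ℝ) ≤ (s + δ) * (Δ * (Real.log (Real.log Δ) / Real.log Δ)) := by
  have hs1 : (1 : ℝ) ≤ s := by exact_mod_cast hs
  obtain ⟨η, hη⟩ : ∃ η : ℝ, η = min (δ / (10 * (s + 1))) (1 / 20) := ⟨_, rfl⟩
  have hη0 : 0 < η := by rw [hη]; exact lt_min (by positivity) (by norm_num)
  have hη1 : η ≤ 1 / 20 := by rw [hη]; exact min_le_right _ _
  have hη2 : η * (10 * (s + 1)) ≤ δ := by
    rw [← le_div_iff₀ (by positivity), hη]; exact min_le_left _ _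
  have hlt : Filter.Tendsto (fun n : ℕ => Real.log (n : ℝ)) Filter.atTop Filter.atTop :=
    Real.tendsto_log_atTop.comp tendsto_natCast_atTop_atTop
  have t1 := (isLittleO_pow_exp_pos_mul_atTop 1 hη0).bound (show (0 : ℝ) < η / 3 by positivity)
  obtain ⟨N, hN⟩ := Filter.eventually_atTop.1 ((hlt.eventually (t1.and
    (Filter.eventually_ge_atTop (max (Real.exp (2 / η)) (max (1 / η) 10))))))
  refine ⟨max N 1, ?_⟩
  intro Δ hΔ V _ G hcl hdeg
  obtain ⟨hE, hLb⟩ := hN Δ ((le_max_left _ _).trans hΔ)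
  have hΔ1 : (1 : ℝ) ≤ Δ := by exact_mod_cast (le_max_right _ _).trans hΔ
  obtain ⟨L, hL⟩ : ∃ L : ℝ, L = Real.log (Δ : ℝ) := ⟨_, rfl⟩
  rw [← hL] at hE hLb ⊢
  have hL10 : 10 ≤ L := ((le_max_right _ _).trans (le_max_right _ _)).trans hLb
  have hLη : 1 / η ≤ L := ((le_max_left _ _).trans (le_max_right _ _)).trans hLb
  have hL0 : 0 < L := by linarith
  have hlogL : 2 / η ≤ Real.log L := by
    rw [Real.le_log_iff_exp_le hL0]; exact (le_max_left _ _).trans hLb
  have hηL : 1 ≤ L * η := by rwa [div_le_iff₀ hη0] at hLη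
  have hlogL1 : 1 ≤ Real.log L := by
    have : 1 ≤ 2 / η := by rw [le_div_iff₀ hη0]; linarith
    linarith
  have hΔe : (Δ : ℝ) = Real.exp L := by rw [hL, Real.exp_log (by linarith)]
  have hE' : 3 * L ≤ η * Real.exp (η * L) := by
    have : L ≤ η / 3 * Real.exp (η * L) := by
      simpa [abs_of_nonneg (Real.exp_pos (η * L)).le, abs_of_nonneg hL0.le] using hE
    linarith
  obtain ⟨T, hT⟩ : ∃ T : ℝ, T = (1 - 2 * η) * L := ⟨_, rfl⟩
  have hT1 : 1 < T := by
    rw [hT]
    have : (18 / 20) * 10 ≤ (1 - 2 * η) * L :=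
      mul_le_mul (by linarith) hL10 (by norm_num) (by linarith)
    linarith
  have hTL : T ≤ L := by
    rw [hT]
    have : 0 < η * L := by positivity
    linarith
  obtain ⟨S, hS⟩ : ∃ S : ℝ, S = s * Real.log (3 * (T + 1)) := ⟨_, rfl⟩
  have hS0 : 0 ≤ S := by
    rw [hS]
    have : 0 ≤ Real.log (3 * (T + 1)) := Real.log_nonneg (by linarith)
    positivity
  have hS1 : S ≤ s * ((1 + η) * Real.log L) := by
    rw [hS]
    refine mul_le_mul_of_nonneg_left ?_ (by linarith)
    have h1 : Real.log (3 * (T + 1)) ≤ Real.log (Real.exp 2 * L) := by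
      apply Real.log_le_log (by linarith)
      have h2 : 4 ≤ Real.exp 2 := by
        have h3 := Real.add_one_le_exp (1 : ℝ)
        have h4 : Real.exp 2 = Real.exp 1 * Real.exp 1 := by rw [← Real.exp_add]; norm_num
        rw [h4]
        nlinarith
      nlinarith
    rw [Real.log_mul (Real.exp_pos _).ne' hL0.ne', Real.log_exp] at h1
    have h5 : 2 ≤ η * Real.log L := by
      rw [div_le_iff₀ hη0] at hlogL
      linarith
    linarith
  obtain ⟨n, hn⟩ : ∃ n : ℕ, n = ⌊(s + δ) * (Δ * (Real.log L / L))⌋₊ := ⟨_, rfl⟩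
  have hX : 0 < Δ * (Real.log L / L) := by positivity
  refine ⟨n, ?_, by rw [hn]; exact Nat.floor_le (by positivity)⟩
  refine colorable_of_occ (s0 := 2) le_rfl Δ (β := Real.exp T) (γ := S / (T - 1))
    (ℓ := Real.exp (η * L)) (Real.exp_pos _) (div_nonneg hS0 (by linarith)) (Real.exp_pos _) hdeg
    ?_ ?_
  · intro v N' hN' l hl hl1
    refine occ_gen N' l hl (fun u => ?_) hT1 hS0 (fun m hm hm1 hZ => ?_)
    · have := hl1 u
      norm_num at this
      exact this
    · rw [hS]
      refine weight1 hT1.le N' ?_ m hm hm1 hZ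
      intro K hK hc
      have hvK : v ∉ K := fun h => (hN' v (hK h)).ne rfl
      have h1 := hcl (insert v K) (by
        rw [Finset.coe_insert, SimpleGraph.isClique_insert_of_notMem (by exact_mod_cast hvK)]
        exact ⟨hc, fun u hu => hN' u (hK (by exact_mod_cast hu))⟩)
      rw [Finset.card_insert_of_notMem hvK] at h1
      omega
  · have h1 : Real.exp T * Real.exp (η * L) = Real.exp ((1 - η) * L) := by
      rw [← Real.exp_add, hT]; congr 1; ring
    have h2 : (Δ : ℝ) * ((2 : ℕ) : ℝ) / Real.exp (η * L) = 2 * Real.exp ((1 - η) * L) := by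
      rw [hΔe, div_eq_iff (Real.exp_pos _).ne', mul_assoc 2, ← Real.exp_add]
      push_cast
      rw [mul_comm]
      congr 2
      ring
    rw [h1, h2]
    have h3 : 3 * Real.exp ((1 - η) * L) ≤ η * (Δ * (Real.log L / L)) := by
      have h4 : Real.exp ((1 - η) * L) * Real.exp (η * L) = Δ := by
        rw [← Real.exp_add, hΔe]; congr 1; ring
      rw [← h4]
      have h5 : η * (Real.exp ((1 - η) * L) * Real.exp (η * L) * (Real.log L / L)) =
          Real.exp ((1 - η) * L) * (η * Real.exp (η * L) * Real.log L / L) := by ring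
      rw [h5, mul_comm]
      refine mul_le_mul_of_nonneg_left ?_ (Real.exp_pos _).le
      rw [le_div_iff₀ hL0]
      have h6 : η * Real.exp (η * L) * 1 ≤ η * Real.exp (η * L) * Real.log L :=
        mul_le_mul_of_nonneg_left hlogL1 (by positivity)
      linarith
    have h7 : S / (T - 1) ≤ s * (1 + 5 * η) * (Real.log L / L) := by
      rw [div_le_iff₀ (by linarith)]
      have h8 : (1 - 3 * η) * L ≤ T - 1 := by rw [hT]; linarith
      have h9 : s * (1 + 5 * η) * (Real.log L / L) * ((1 - 3 * η) * L) ≤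
          s * (1 + 5 * η) * (Real.log L / L) * (T - 1) :=
        mul_le_mul_of_nonneg_left h8 (by positivity)
      refine le_trans ?_ h9
      have h10 : s * (1 + 5 * η) * (Real.log L / L) * ((1 - 3 * η) * L) =
          s * (((1 + 5 * η) * (1 - 3 * η)) * Real.log L) := by field_simp
      rw [h10]
      refine hS1.trans (mul_le_mul_of_nonneg_left ?_ (by linarith))
      refine mul_le_mul_of_nonneg_right ?_ (by linarith)
      nlinarith
    have h11 : S / (T - 1) * Δ ≤ s * (1 + 5 * η) * (Δ * (Real.log L / L)) := by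
      have := mul_le_mul_of_nonneg_right h7 (show (0 : ℝ) ≤ Δ by positivity)
      linarith
    have h12 : (s + δ) * (Δ * (Real.log L / L)) < n + 1 := by
      rw [hn]; exact Nat.lt_floor_add_one _
    have h13 : 1 ≤ η * (Δ * (Real.log L / L)) := by
      have h14 : L ^ 2 / 2 ≤ Δ := by
        rw [hΔe]
        have := Real.pow_div_factorial_le_exp L (by linarith) 2
        norm_num [Nat.factorial] at this
        exact this
      have h15 : L / 2 ≤ Δ * (Real.log L / L) := by
        rw [mul_div_assoc', le_div_iff₀ hL0]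
        nlinarith
      have h16 : 20 ≤ L / 2 * 40 := by linarith
      have h17 : 2 ≤ Real.log L * η := by rwa [div_le_iff₀ hη0] at hlogL
      have h18 : η * (L / 2 * Real.log L) ≤ η * (Δ * (Real.log L / L)) := by
        refine mul_le_mul_of_nonneg_left ?_ hη0.le
        rw [mul_div_assoc', le_div_iff₀ hL0]
        have h19 := mul_le_mul_of_nonneg_right h14 (show 0 ≤ Real.log L by linarith)
        linarith
      nlinarith
    have h20 : s * (1 + 5 * η) + 2 * η ≤ s + δ := by nlinarith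
    have h21 := mul_le_mul_of_nonneg_right h20 hX.le
    linarith

end Pool.Agent.Q149.HY
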